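import Mathlib

/-!
Exactness of the cochain complex of partial matchings between a finite set `I` of rows and a
large set of columns, over `ZMod 2`, below the top position.
-/

namespace Pool.Agent.Lib.MP0b520b

open Finset

set_option linter.unusedSectionVars false

variable {P H : Type*} [DecidableEq P] [DecidableEq H]

/-- the coboundary: sum over all ways to erase one element -/
def bd {α : Type*} [DecidableEq α] (g : Finset α → ZMod 2) (σ : Finset α) : ZMod 2 :=
  ∑ e ∈ σ, g (σ.erase e)

theorem bd_bd {α : Type*} [DecidableEq α] (g : Finset α → ZMod 2) (σ : Finset α) :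
    bd (bd g) σ = 0 := by
  unfold bd
  rw [Finset.sum_sigma']
  apply Finset.sum_involution (fun (x : (_ : α) × α) _ => (⟨x.2, x.1⟩ : (_ : α) × α))
  · rintro ⟨e, f⟩ _
    simp only
    rw [Finset.erase_right_comm]
    exact CharTwo.add_self_eq_zero _
  · rintro ⟨e, f⟩ h _ heq
    simp only [Finset.mem_sigma, Finset.mem_erase] at h
    have : f = e := by
      have := congrArg Sigma.fst heq
      simpa using this
    exact h.2.1 this
  · rintro ⟨e, f⟩ h
    simp only [Finset.mem_sigma, Finset.mem_erase] at h ⊢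
    exact ⟨h.2.2, fun h' => h.2.1 h'.symm, h.1⟩
  · rintro ⟨e, f⟩ _
    rfl

theorem bd_add {α : Type*} [DecidableEq α] (g h : Finset α → ZMod 2) (σ : Finset α) :
    bd (fun τ => g τ + h τ) σ = bd g σ + bd h σ := by
  unfold bd
  exact Finset.sum_add_distrib

/-- exactness at position `r` of the complex of a family of finite sets -/
def Exact {α : Type*} [DecidableEq α] (K : Finset α → Prop) (r : ℕ) : Prop :=
  ∀ g : Finset α → ZMod 2, (∀ μ, K μ → μ.card = r + 1 → bd g μ = 0) →
    ∃ h : Finset α → ZMod 2, ∀ σ, K σ → σ.card = r → g σ = bd h σ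

def Down {α : Type*} [DecidableEq α] (K : Finset α → Prop) : Prop :=
  ∀ σ, K σ → ∀ e, K (σ.erase e)

theorem Exact.union {α : Type*} [DecidableEq α] {K K' : Finset α → Prop} (hK : Down K)
    (hK' : Down K') {r : ℕ} (h1 : Exact K r) (h2 : Exact K' r)
    (h3 : ∀ s, r = s + 1 → Exact (fun σ => K σ ∧ K' σ) s) :
    Exact (fun σ => K σ ∨ K' σ) r := by
  classical
  intro g hg
  obtain ⟨h, hh⟩ := h1 g (fun μ hμ hc => hg μ (Or.inl hμ) hc)
  obtain ⟨h', hh'⟩ := h2 g (fun μ hμ hc => hg μ (Or.inr hμ) hc)
  rcases Nat.eq_zero_or_pos r with hr | hr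
  · subst hr
    refine ⟨h, ?_⟩
    intro σ hσ hc
    rcases hσ with hσ | hσ
    · exact hh σ hσ hc
    · rw [hh' σ hσ hc]
      have : σ = ∅ := Finset.card_eq_zero.mp hc
      subst this
      simp [bd]
  · obtain ⟨s, rfl⟩ : ∃ s, r = s + 1 := ⟨r - 1, by omega⟩
    obtain ⟨k, hk⟩ := h3 s rfl (fun σ => h σ + h' σ) (by
      intro μ hμ hc
      rw [bd_add, ← hh μ hμ.1 hc, ← hh' μ hμ.2 hc]
      exact CharTwo.add_self_eq_zero _)
    refine ⟨fun σ => if K σ then h σ else h' σ + bd k σ, ?_⟩
    intro σ hσ hc
    by_cases hσK : K σ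
    · rw [hh σ hσK hc]
      unfold bd
      apply Finset.sum_congr rfl
      intro e he
      show h (σ.erase e) = if K (σ.erase e) then h (σ.erase e) else _
      rw [if_pos (hK σ hσK e)]
    · have hσ' : K' σ := hσ.resolve_left hσK
      have key : ∀ e ∈ σ, (if K (σ.erase e) then h (σ.erase e) else h' (σ.erase e) +
          bd k (σ.erase e)) = h' (σ.erase e) + bd k (σ.erase e) := by
        intro e he
        split_ifs with hKe
        · have := hk (σ.erase e) ⟨hKe, hK' σ hσ' e⟩ (by
            rw [Finset.card_erase_of_mem he, hc]; rfl)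
          rw [← this]
          have h2 : h' (σ.erase e) + h' (σ.erase e) = 0 := CharTwo.add_self_eq_zero _
          calc h (σ.erase e) = h (σ.erase e) + (h' (σ.erase e) + h' (σ.erase e)) := by
                rw [h2, add_zero]
            _ = h' (σ.erase e) + (h (σ.erase e) + h' (σ.erase e)) := by ring
        · rfl
      have : bd (fun σ => if K σ then h σ else h' σ + bd k σ) σ
          = bd h' σ + bd (bd k) σ := by
        unfold bd at *
        rw [← Finset.sum_add_distrib]
        apply Finset.sum_congr rfl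
        intro e he
        exact key e he
      rw [this, bd_bd, add_zero]
      exact hh' σ hσ' hc

/-- a family in which each row of `I` has a private column is exact below position `|I|` -/
theorem exact_private {K : Finset (P × H) → Prop} (hK : Down K) (I : Finset P) (t : P → H)
    (ht : ∀ σ, K σ → ∀ i ∈ I, (∀ e ∈ σ, e.1 ≠ i) → K (insert (i, t i) σ)) {r : ℕ}
    (hr : r < I.card) : Exact K r := by
  classical
  intro g hg
  have main : ∀ I₀ : Finset P, I₀ ⊆ I → ∃ h : Finset (P × H) → ZMod 2,
      ∀ σ, K σ → σ.card = r → (∃ i ∈ I₀, ∀ e ∈ σ, e.1 ≠ i) → g σ = bd h σ := by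
    intro I₀
    induction I₀ using Finset.induction_on with
    | empty =>
      intro _
      exact ⟨fun _ => 0, fun σ _ _ h => by simp at h⟩
    | insert i I₁ hi ih =>
      intro hsub
      obtain ⟨h₁, hh₁⟩ := ih (fun x hx => hsub (Finset.mem_insert_of_mem hx))
      have hiI : i ∈ I := hsub (Finset.mem_insert_self _ _)
      set g₁ : Finset (P × H) → ZMod 2 := fun σ => g σ + bd h₁ σ with hg₁
      have hcoc : ∀ μ, K μ → μ.card = r + 1 → bd g₁ μ = 0 := by
        intro μ hμ hc
        rw [hg₁, bd_add, bd_bd, hg μ hμ hc, add_zero]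
      have hvan : ∀ σ, K σ → σ.card = r → (∃ i' ∈ I₁, ∀ e ∈ σ, e.1 ≠ i') → g₁ σ = 0 := by
        intro σ hσ hc hm
        simp only [hg₁]
        rw [hh₁ σ hσ hc hm]
        exact CharTwo.add_self_eq_zero _
      set κ : Finset (P × H) → ZMod 2 := fun σ =>
        if (∀ e ∈ σ, e.1 ≠ i) then g₁ (insert (i, t i) σ) else 0 with hκ
      refine ⟨fun σ => h₁ σ + κ σ, ?_⟩
      intro σ hσ hc hm
      rw [bd_add]
      have key : g₁ σ = bd κ σ := by
        by_cases hmi : ∀ e ∈ σ, e.1 ≠ i
        · have hnot : (i, t i) ∉ σ := fun h => hmi _ h rfl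
          have h1 := hcoc (insert (i, t i) σ) (ht σ hσ i hiI hmi) (by
            rw [Finset.card_insert_of_notMem hnot, hc])
          unfold bd at h1
          rw [Finset.sum_insert hnot, Finset.erase_insert hnot] at h1
          have h2 : ∑ e ∈ σ, g₁ ((insert (i, t i) σ).erase e) = bd κ σ := by
            unfold bd
            apply Finset.sum_congr rfl
            intro e he
            have hne : e ≠ (i, t i) := fun h => hnot (h ▸ he)
            rw [Finset.erase_insert_of_ne (Ne.symm hne)]
            simp only [hκ]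
            rw [if_pos]
            intro f hf
            exact hmi f (Finset.mem_of_mem_erase hf)
          rw [h2] at h1
          have h3 : bd κ σ + bd κ σ = 0 := CharTwo.add_self_eq_zero _
          calc g₁ σ = g₁ σ + (bd κ σ + bd κ σ) := by rw [h3, add_zero]
            _ = (g₁ σ + bd κ σ) + bd κ σ := by ring
            _ = bd κ σ := by rw [h1, zero_add]
        · obtain ⟨i', hi', hm'⟩ := hm
          have hi'1 : i' ∈ I₁ := by
            rcases Finset.mem_insert.mp hi' with h | h
            · subst h; exact absurd hm' hmi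
            · exact h
          have hii' : i ≠ i' := fun h => hi (h ▸ hi'1)
          rw [hvan σ hσ hc ⟨i', hi'1, hm'⟩]
          symm
          unfold bd
          apply Finset.sum_eq_zero
          intro e he
          simp only [hκ]
          split_ifs with hme
          · apply hvan
            · exact ht _ (hK σ hσ e) i hiI hme
            · rw [Finset.card_insert_of_notMem, Finset.card_erase_of_mem he, hc]
              · have : 0 < σ.card := Finset.card_pos.mpr ⟨e, he⟩
                omega
              · intro h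
                exact hme _ h rfl
            · refine ⟨i', hi'1, ?_⟩
              intro f hf
              rcases Finset.mem_insert.mp hf with h | h
              · subst h; exact hii'
              · exact hm' f (Finset.mem_of_mem_erase h)
          · rfl
      rw [← key]
      simp only [hg₁]
      have h3 : bd h₁ σ + bd h₁ σ = 0 := CharTwo.add_self_eq_zero _
      calc g σ = g σ + (bd h₁ σ + bd h₁ σ) := by rw [h3, add_zero]
        _ = bd h₁ σ + (g σ + bd h₁ σ) := by ring
  obtain ⟨h, hh⟩ := main I (Finset.Subset.refl _)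
  refine ⟨h, fun σ hσ hc => hh σ hσ hc ?_⟩
  have : (σ.image Prod.fst).card < I.card :=
    lt_of_le_of_lt Finset.card_image_le (hc ▸ hr)
  obtain ⟨i, hi, hi'⟩ := Finset.exists_mem_notMem_of_card_lt_card this
  refine ⟨i, hi, fun e he h => hi' ?_⟩
  exact Finset.mem_image.mpr ⟨e, he, h⟩

/-- finite sets of pairs forming a matching -/
def IsM (σ : Finset (P × H)) : Prop :=
  ∀ e ∈ σ, ∀ f ∈ σ, (e.1 = f.1 ∨ e.2 = f.2) → e = f

/-- matchings with all rows in `I` -/
def MI (I : Finset P) (σ : Finset (P × H)) : Prop := IsM σ ∧ ∀ e ∈ σ, e.1 ∈ I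

theorem IsM.subset {σ τ : Finset (P × H)} (h : IsM σ) (hs : τ ⊆ σ) : IsM τ :=
  fun e he f hf hef => h e (hs he) f (hs hf) hef

theorem MI.subset {I : Finset P} {σ τ : Finset (P × H)} (h : MI I σ) (hs : τ ⊆ σ) : MI I τ :=
  ⟨h.1.subset hs, fun e he => h.2 e (hs he)⟩

/-- the sub-board where column `t s i` is reserved for row `i` -/
def Kb {ι : Type*} (I : Finset P) (t : ι → P → H) (s : ι) (σ : Finset (P × H)) : Prop :=
  ∀ e ∈ σ, ∀ i ∈ I, e.2 = t s i → e.1 = i

theorem exact_KST {ι : Type*} [DecidableEq ι] (I : Finset P) (t : ι → P → H)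
    (hinj : ∀ s s' : ι, ∀ i ∈ I, ∀ i' ∈ I, t s i = t s' i' → s = s' ∧ i = i')
    (S : Finset ι) (hS : S.Nonempty) :
    ∀ (T : Finset ι) (r : ℕ), r < I.card →
      Exact (fun σ => MI I σ ∧ (∃ s ∈ S, Kb I t s σ) ∧ (∀ s ∈ T, Kb I t s σ)) r := by
  have hdown : ∀ S T : Finset ι,
      Down (fun σ => MI I σ ∧ (∃ s ∈ S, Kb I t s σ) ∧ (∀ s ∈ T, Kb I t s σ)) := by
    rintro S T σ ⟨h1, ⟨s, hs, h2⟩, h3⟩ e
    refine ⟨h1.subset (Finset.erase_subset _ _), ⟨s, hs, ?_⟩, ?_⟩
    · intro f hf; exact h2 f (Finset.mem_of_mem_erase hf)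
    · intro s' hs' f hf; exact h3 s' hs' f (Finset.mem_of_mem_erase hf)
  have hsingle : ∀ (s : ι) (T : Finset ι) (r : ℕ), r < I.card →
      Exact (fun σ => MI I σ ∧ (∃ s' ∈ ({s} : Finset ι), Kb I t s' σ) ∧
        (∀ s ∈ T, Kb I t s σ)) r := by
    intro s T r hr
    apply exact_private (hdown _ _) I (t s) _ hr
    rintro σ ⟨h1, ⟨s', hs', h2⟩, h3⟩ i hi hm
    have hs's : s' = s := Finset.mem_singleton.mp hs'
    subst hs's
    have hcol : ∀ e ∈ σ, e.2 ≠ t s' i := fun e he h => hm e he (h2 e he i hi h)
    refine ⟨⟨?_, ?_⟩, ⟨s', hs', ?_⟩, ?_⟩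
    · intro e he f hf hef
      rcases Finset.mem_insert.mp he with rfl | he <;> rcases Finset.mem_insert.mp hf with rfl | hf
      · rfl
      · exfalso
        rcases hef with h | h
        · exact hm f hf h.symm
        · exact hcol f hf h.symm
      · exfalso
        rcases hef with h | h
        · exact hm e he h
        · exact hcol e he h
      · exact h1.1 e he f hf hef
    · intro e he
      rcases Finset.mem_insert.mp he with rfl | he
      · exact hi
      · exact h1.2 e he
    · intro e he i' hi' h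
      rcases Finset.mem_insert.mp he with rfl | he
      · exact (hinj s' s' i hi i' hi' h).2
      · exact h2 e he i' hi' h
    · intro s'' hs'' e he i' hi' h
      rcases Finset.mem_insert.mp he with rfl | he
      · exact (hinj s' s'' i hi i' hi' h).2
      · exact h3 s'' hs'' e he i' hi' h
  induction hS using Finset.Nonempty.cons_induction with
  | singleton s => exact fun T r hr => hsingle s T r hr
  | cons s S' hs hS' ih =>
    intro T r hr
    have h1 := hsingle s T r hr
    have h2 := ih T r hr
    have h3 : ∀ q, r = q + 1 → Exact (fun σ =>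
        (MI I σ ∧ (∃ s' ∈ ({s} : Finset ι), Kb I t s' σ) ∧ (∀ s ∈ T, Kb I t s σ)) ∧
        (MI I σ ∧ (∃ s ∈ S', Kb I t s σ) ∧ (∀ s ∈ T, Kb I t s σ))) q := by
      intro q hq
      have h4 := ih (insert s T) q (by omega)
      convert h4 using 2 with σ
      simp only [Finset.mem_singleton, exists_eq_left, Finset.mem_insert, forall_eq_or_imp]
      tauto
    have h5 := Exact.union (hdown _ _) (hdown _ _) h1 h2 h3
    convert h5 using 2 with σ
    simp only [Finset.mem_cons, Finset.mem_singleton]
    constructor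
    · rintro ⟨a, ⟨s', hs' | hs', b⟩, c⟩
      · exact Or.inl ⟨a, ⟨s', hs', b⟩, c⟩
      · exact Or.inr ⟨a, ⟨s', hs', b⟩, c⟩
    · rintro (⟨a, ⟨s', hs', b⟩, c⟩ | ⟨a, ⟨s', hs', b⟩, c⟩)
      · exact ⟨a, ⟨s', Or.inl hs', b⟩, c⟩
      · exact ⟨a, ⟨s', Or.inr hs', b⟩, c⟩

theorem exact_MI [Fintype H] (I : Finset P) (hcard : (I.card + 1) * I.card ≤ Fintype.card H)
    {r : ℕ} (hr : r < I.card) : Exact (MI (H := H) I) r := by
  classical
  have hpos : 0 < I.card := by omega
  have hH : Nonempty H := by
    rw [← Fintype.card_pos_iff]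
    have : 0 < (I.card + 1) * I.card := Nat.mul_pos (by omega) hpos
    omega
  obtain ⟨emb⟩ : Nonempty ((Fin (I.card + 1) × {x // x ∈ I}) ↪ H) := by
    apply Function.Embedding.nonempty_of_card_le
    simpa using hcard
  set t : Fin (I.card + 1) → P → H := fun s i =>
    if h : i ∈ I then emb (s, ⟨i, h⟩) else hH.some with ht
  have hinj : ∀ s s' : Fin (I.card + 1), ∀ i ∈ I, ∀ i' ∈ I, t s i = t s' i' →
      s = s' ∧ i = i' := by
    intro s s' i hi i' hi' h
    simp only [ht, hi, hi', dif_pos] at h
    have := emb.injective h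
    simp only [Prod.mk.injEq, Subtype.mk.injEq] at this
    exact this
  have hex := exact_KST I t hinj Finset.univ Finset.univ_nonempty ∅ r hr
  have hcov : ∀ σ : Finset (P × H), MI I σ → σ.card ≤ I.card →
      ∃ s ∈ (Finset.univ : Finset (Fin (I.card + 1))), Kb I t s σ := by
    intro σ hσ hc
    by_contra hcon
    push Not at hcon
    have hc2 : ∀ s : Fin (I.card + 1), ∃ e ∈ σ, ∃ i ∈ I, e.2 = t s i := by
      intro s
      have := hcon s (Finset.mem_univ _)
      unfold Kb at this
      push Not at this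
      obtain ⟨e, he, i, hi, h1, _⟩ := this
      exact ⟨e, he, i, hi, h1⟩
    choose f hf i hi hfi using hc2
    have hfinj : Function.Injective f := by
      intro s s' h
      have : t s (i s) = t s' (i s') := by rw [← hfi s, ← hfi s', h]
      exact (hinj s s' (i s) (hi s) (i s') (hi s') this).1
    have : (Finset.univ.image f).card ≤ σ.card := by
      apply Finset.card_le_card
      intro e he
      obtain ⟨s, _, rfl⟩ := Finset.mem_image.mp he
      exact hf s
    rw [Finset.card_image_of_injective _ hfinj, Finset.card_univ, Fintype.card_fin] at this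
    omega
  intro g hg
  obtain ⟨h, hh⟩ := hex g (fun μ hμ hc => hg μ hμ.1 hc)
  refine ⟨h, fun σ hσ hc => hh σ ⟨hσ, hcov σ hσ (by omega), by simp⟩ hc⟩

end Pool.Agent.Lib.MP0b520b
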