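import Mathlib
import Pool.Agent.Lib.MP_0b520b_lc.Exact

/-!
The algebra of `ZMod 2`-valued functions on partial matchings, its degree filtration and the
spaces `L d` spanned by the degree `d` multiples of the pigeon axioms.
-/

namespace Pool.Agent.Lib.MP0b520b

open Finset

set_option linter.unusedSectionVars false

/-- partial matchings -/
abbrev MT (P H : Type) : Type := {σ : Finset (P × H) // IsM σ}

/-- functions on partial matchings -/
abbrev Alg (P H : Type) : Type := MT P H → ZMod 2

variable {P H : Type} [DecidableEq P] [DecidableEq H] [Fintype P] [Fintype H]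

/-- the monomial of `τ` -/
def xm (τ : Finset (P × H)) : Alg P H := fun σ => if τ ⊆ σ.1 then 1 else 0

theorem xm_mul (τ τ' : Finset (P × H)) : (xm τ : Alg P H) * xm τ' = xm (τ ∪ τ') := by
  funext σ
  simp only [xm, Pi.mul_apply, Finset.union_subset_iff]
  by_cases h1 : τ ⊆ σ.1 <;> by_cases h2 : τ' ⊆ σ.1 <;> simp [h1, h2]

theorem xm_empty : (xm ∅ : Alg P H) = 1 := by
  funext σ
  simp [xm]

theorem xm_eq_zero {τ : Finset (P × H)} (h : ¬ IsM τ) : (xm τ : Alg P H) = 0 := by
  funext σ
  simp only [xm, Pi.zero_apply, ite_eq_right_iff, one_ne_zero, imp_false]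
  intro hs
  exact h (σ.2.subset hs)

/-- degree filtration -/
def Adeg (P H : Type) [DecidableEq P] [DecidableEq H] (k : ℕ) : Submodule (ZMod 2) (Alg P H) :=
  Submodule.span (ZMod 2) {f | ∃ τ : Finset (P × H), τ.card ≤ k ∧ f = xm τ}

/-- multiple of the axiom of pigeon `i` -/
def rel (ν : Finset (P × H)) (i : P) : Alg P H := xm ν * (1 + ∑ j, xm {(i, j)})

/-- span of the multiples of pigeon axioms of degree at most `d` -/
def Ls (P H : Type) [DecidableEq P] [DecidableEq H] [Fintype H] (d : ℕ) :
    Submodule (ZMod 2) (Alg P H) :=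
  Submodule.span (ZMod 2) {f | ∃ (ν : Finset (P × H)) (i : P), ν.card + 1 ≤ d ∧ f = rel ν i}

theorem rel_eq (ν : Finset (P × H)) (i : P) :
    (rel ν i : Alg P H) = xm ν + ∑ j, xm (insert (i, j) ν) := by
  unfold rel
  rw [mul_add, mul_one, Finset.mul_sum]
  congr 1
  apply Finset.sum_congr rfl
  intro j _
  rw [xm_mul, Finset.union_comm]
  rfl

theorem xm_mem_Adeg {τ : Finset (P × H)} {k : ℕ} (h : τ.card ≤ k) :
    (xm τ : Alg P H) ∈ Adeg P H k := Submodule.subset_span ⟨τ, h, rfl⟩

theorem Adeg_mono {k l : ℕ} (h : k ≤ l) : Adeg P H k ≤ Adeg P H l := by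
  apply Submodule.span_mono
  rintro f ⟨τ, hτ, rfl⟩
  exact ⟨τ, hτ.trans h, rfl⟩

theorem Ls_mono {k l : ℕ} (h : k ≤ l) : Ls P H k ≤ Ls P H l := by
  apply Submodule.span_mono
  rintro f ⟨ν, i, hν, rfl⟩
  exact ⟨ν, i, hν.trans h, rfl⟩

theorem one_mem_Adeg (k : ℕ) : (1 : Alg P H) ∈ Adeg P H k := by
  rw [← xm_empty]; exact xm_mem_Adeg (by simp)

theorem rel_mem_Adeg {ν : Finset (P × H)} {i : P} {d : ℕ} (h : ν.card + 1 ≤ d) :
    (rel ν i : Alg P H) ∈ Adeg P H d := by
  rw [rel_eq]
  apply Submodule.add_mem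
  · exact xm_mem_Adeg (by omega)
  · apply Submodule.sum_mem
    intro j _
    exact xm_mem_Adeg ((Finset.card_insert_le _ _).trans h)

theorem Ls_le_Adeg (d : ℕ) : Ls P H d ≤ Adeg P H d := by
  apply Submodule.span_le.mpr
  rintro f ⟨ν, i, hν, rfl⟩
  exact rel_mem_Adeg hν

theorem Adeg_mul {k l : ℕ} {f g : Alg P H} (hf : f ∈ Adeg P H k) (hg : g ∈ Adeg P H l) :
    f * g ∈ Adeg P H (k + l) := by
  unfold Adeg at hf
  induction hf using Submodule.span_induction with
  | mem x hx =>
    obtain ⟨τ, hτ, rfl⟩ := hx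
    unfold Adeg at hg
    induction hg using Submodule.span_induction with
    | mem y hy =>
      obtain ⟨τ', hτ', rfl⟩ := hy
      rw [xm_mul]
      exact xm_mem_Adeg ((Finset.card_union_le _ _).trans (by omega))
    | zero => rw [mul_zero]; exact Submodule.zero_mem _
    | add x y _ _ hx hy => rw [mul_add]; exact Submodule.add_mem _ hx hy
    | smul a x _ hx => rw [mul_smul_comm]; exact Submodule.smul_mem _ _ hx
  | zero => rw [zero_mul]; exact Submodule.zero_mem _
  | add x y _ _ hx hy => rw [add_mul]; exact Submodule.add_mem _ hx hy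
  | smul a x _ hx => rw [smul_mul_assoc]; exact Submodule.smul_mem _ _ hx

theorem Ls_mul {k l : ℕ} {f g : Alg P H} (hf : f ∈ Ls P H k) (hg : g ∈ Adeg P H l) :
    f * g ∈ Ls P H (k + l) := by
  unfold Ls at hf
  induction hf using Submodule.span_induction with
  | mem x hx =>
    obtain ⟨ν, i, hν, rfl⟩ := hx
    unfold Adeg at hg
    induction hg using Submodule.span_induction with
    | mem y hy =>
      obtain ⟨τ', hτ', rfl⟩ := hy
      have : (rel ν i : Alg P H) * xm τ' = rel (ν ∪ τ') i := by
        unfold rel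
        rw [mul_right_comm, xm_mul]
      rw [this]
      refine Submodule.subset_span ⟨_, i, ?_, rfl⟩
      have := Finset.card_union_le ν τ'
      omega
    | zero => rw [mul_zero]; exact Submodule.zero_mem _
    | add x y _ _ hx hy => rw [mul_add]; exact Submodule.add_mem _ hx hy
    | smul a x _ hx => rw [mul_smul_comm]; exact Submodule.smul_mem _ _ hx
  | zero => rw [zero_mul]; exact Submodule.zero_mem _
  | add x y _ _ hx hy => rw [add_mul]; exact Submodule.add_mem _ hx hy
  | smul a x _ hx => rw [smul_mul_assoc]; exact Submodule.smul_mem _ _ hx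

open Classical in
/-- coefficient functional (Moebius inversion mod 2) -/
noncomputable def coef (τ : Finset (P × H)) : Alg P H →ₗ[ZMod 2] ZMod 2 where
  toFun f := ∑ σ ∈ τ.powerset, if h : IsM σ then f ⟨σ, h⟩ else 0
  map_add' f g := by
    rw [← Finset.sum_add_distrib]
    apply Finset.sum_congr rfl
    intro σ _
    split_ifs <;> simp
  map_smul' a f := by
    simp only [RingHom.id_apply, smul_eq_mul]
    rw [Finset.mul_sum]
    apply Finset.sum_congr rfl
    intro σ _
    split_ifs <;> simp

theorem coef_xm {τ : Finset (P × H)} (hτ : IsM τ) (ρ : Finset (P × H)) :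
    coef τ (xm ρ : Alg P H) = if ρ = τ then 1 else 0 := by
  classical
  have h1 : coef τ (xm ρ : Alg P H) = ∑ σ ∈ τ.powerset, if ρ ⊆ σ then (1 : ZMod 2) else 0 := by
    show (∑ σ ∈ τ.powerset, if h : IsM σ then (xm ρ : Alg P H) ⟨σ, h⟩ else 0) = _
    apply Finset.sum_congr rfl
    intro σ hσ
    have : IsM σ := hτ.subset (Finset.mem_powerset.mp hσ)
    rw [dif_pos this]
    rfl
  rw [h1, ← Finset.sum_filter, Finset.sum_const, nsmul_eq_mul, mul_one]
  by_cases hs : ρ ⊆ τ
  · have h2 : (τ.powerset.filter (fun σ => ρ ⊆ σ)) = Finset.Icc ρ τ := by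
      ext σ
      simp only [Finset.mem_filter, Finset.mem_powerset, Finset.mem_Icc]
      tauto
    rw [h2, Finset.card_Icc_finset hs]
    split_ifs with h
    · subst h; simp
    · have : 0 < τ.card - ρ.card := by
        have := Finset.card_lt_card (lt_of_le_of_ne hs h)
        omega
      obtain ⟨k, hk⟩ := Nat.exists_eq_succ_of_ne_zero this.ne'
      rw [hk, pow_succ]
      push_cast
      have h2 : (2 : ZMod 2) = 0 := by decide
      rw [h2, mul_zero]
  · have h2 : (τ.powerset.filter (fun σ => ρ ⊆ σ)) = ∅ := by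
      apply Finset.filter_eq_empty_iff.mpr
      intro σ hσ h
      exact hs (h.trans (Finset.mem_powerset.mp hσ))
    rw [h2]
    have : ρ ≠ τ := fun h => hs (h ▸ Finset.Subset.refl _)
    simp [this]

theorem coef_Adeg {τ : Finset (P × H)} (hτ : IsM τ) {k : ℕ} (hk : k < τ.card) {f : Alg P H}
    (hf : f ∈ Adeg P H k) : coef τ f = 0 := by
  unfold Adeg at hf
  induction hf using Submodule.span_induction with
  | mem x hx =>
    obtain ⟨ρ, hρ, rfl⟩ := hx
    rw [coef_xm hτ, if_neg]
    rintro rfl
    omega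
  | zero => exact map_zero _
  | add x y _ _ hx hy => rw [map_add, hx, hy, add_zero]
  | smul a x _ hx => rw [map_smul, hx, smul_zero]

open Classical in
/-- the matchings with rows in `I` and size `k` -/
noncomputable def NI (I : Finset P) (k : ℕ) : Finset (Finset (P × H)) :=
  Finset.univ.filter (fun ν => MI I ν ∧ ν.card = k)

theorem mem_NI {I : Finset P} {k : ℕ} {ν : Finset (P × H)} :
    ν ∈ NI I k ↔ MI I ν ∧ ν.card = k := by
  simp [NI]

/-- rows of a set of pairs -/
def dm (ν : Finset (P × H)) : Finset P := ν.image Prod.fst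

theorem card_dm {ν : Finset (P × H)} (h : IsM ν) : (dm ν).card = ν.card := by
  apply Finset.card_image_of_injOn
  intro e he f hf hef
  exact h e he f hf (Or.inl hef)

theorem dm_subset {I : Finset P} {ν : Finset (P × H)} (h : MI I ν) : dm ν ⊆ I := by
  intro i hi
  obtain ⟨e, he, rfl⟩ := Finset.mem_image.mp hi
  exact h.2 e he

theorem inner_sum (I : Finset P) {κ : Finset (P × H)} (hκ : MI I κ) :
    ∑ i ∈ I \ dm κ, ∑ j, (xm (insert (i, j) κ) : Alg P H) =
      ∑ e ∈ (by classical exact Finset.univ.filter (fun e : P × H => e ∉ κ ∧ MI I (insert e κ))),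
        xm (insert e κ) := by
  classical
  rw [← Finset.sum_product']
  symm
  apply Finset.sum_subset
  · intro e he
    simp only [Finset.mem_filter, Finset.mem_univ, true_and] at he
    rw [Finset.mem_product]
    refine ⟨Finset.mem_sdiff.mpr ⟨he.2.2 e (Finset.mem_insert_self _ _), ?_⟩, Finset.mem_univ _⟩
    intro h
    obtain ⟨f, hf, hfe⟩ := Finset.mem_image.mp h
    have := he.2.1 f (Finset.mem_insert_of_mem hf) e (Finset.mem_insert_self _ _) (Or.inl hfe)
    exact he.1 (this ▸ hf)
  · intro e he hne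
    have he1 := Finset.mem_sdiff.mp (Finset.mem_product.mp he).1
    apply xm_eq_zero
    intro hm
    apply hne
    simp only [Finset.mem_filter, Finset.mem_univ, true_and]
    refine ⟨fun h => he1.2 (Finset.mem_image.mpr ⟨e, h, rfl⟩), hm, ?_⟩
    intro f hf
    rcases Finset.mem_insert.mp hf with rfl | hf
    · exact he1.1
    · exact hκ.2 f hf

theorem adj (I : Finset P) (k : ℕ) (u : Finset (P × H) → ZMod 2) :
    ∑ ν ∈ NI I (k + 1), bd u ν • (xm ν : Alg P H) =
      ∑ κ ∈ NI I k, u κ • ∑ i ∈ I \ dm κ, ∑ j, (xm (insert (i, j) κ) : Alg P H) := by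
  classical
  have h1 : ∑ κ ∈ NI I k, u κ • ∑ i ∈ I \ dm κ, ∑ j, (xm (insert (i, j) κ) : Alg P H) =
      ∑ κ ∈ NI I k, ∑ e ∈ Finset.univ.filter (fun e : P × H => e ∉ κ ∧ MI I (insert e κ)),
        u κ • (xm (insert e κ) : Alg P H) := by
    apply Finset.sum_congr rfl
    intro κ hκ
    rw [inner_sum I (mem_NI.mp hκ).1, Finset.smul_sum]
  rw [h1]
  have h2 : ∑ ν ∈ NI I (k + 1), bd u ν • (xm ν : Alg P H) =
      ∑ ν ∈ NI I (k + 1), ∑ e ∈ ν, u (ν.erase e) • (xm ν : Alg P H) := by
    apply Finset.sum_congr rfl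
    intro ν _
    unfold bd
    rw [Finset.sum_smul]
  rw [h2, Finset.sum_sigma', Finset.sum_sigma']
  apply Finset.sum_bij' (fun x _ => (⟨x.1.erase x.2, x.2⟩ : (_ : Finset (P × H)) × (P × H)))
    (fun x _ => (⟨insert x.2 x.1, x.2⟩ : (_ : Finset (P × H)) × (P × H)))
  · rintro ⟨ν, e⟩ h
    simp only [Finset.mem_sigma, mem_NI, Finset.mem_filter, Finset.mem_univ, true_and] at h ⊢
    refine ⟨⟨h.1.1.subset (Finset.erase_subset _ _), ?_⟩, Finset.notMem_erase _ _, ?_⟩
    · rw [Finset.card_erase_of_mem h.2, h.1.2]; rfl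
    · rw [Finset.insert_erase h.2]; exact h.1.1
  · rintro ⟨κ, e⟩ h
    simp only [Finset.mem_sigma, mem_NI, Finset.mem_filter, Finset.mem_univ, true_and] at h ⊢
    exact ⟨⟨h.2.2, by rw [Finset.card_insert_of_notMem h.2.1, h.1.2]⟩,
      Finset.mem_insert_self _ _⟩
  · rintro ⟨ν, e⟩ h
    simp only [Finset.mem_sigma] at h
    simp only [Finset.insert_erase h.2]
  · rintro ⟨κ, e⟩ h
    simp only [Finset.mem_sigma, Finset.mem_filter] at h
    simp only [Finset.erase_insert h.2.2.1]
  · rintro ⟨ν, e⟩ h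
    simp only [Finset.mem_sigma] at h
    simp only [Finset.insert_erase h.2]

theorem two_smul_zero' (f : Alg P H) : f + f = 0 := by
  funext σ
  exact CharTwo.add_self_eq_zero _

/-- the part of a combination of axioms supported on the rows `I` -/
theorem top_mem (d : ℕ) (hd : (d + 2) * (d + 1) ≤ Fintype.card H) (I : Finset P)
    (hI : I.card = d + 1) (c : Finset (P × H) → ZMod 2)
    (hc : ∀ μ : Finset (P × H), MI I μ → μ.card = d + 1 → bd c μ = 0) :
    ∑ ν ∈ NI I d, c ν • ∑ i ∈ I \ dm ν, (rel ν i : Alg P H) ∈ Ls P H d := by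
  classical
  obtain ⟨h, hh⟩ := exact_MI I (by rw [hI]; exact hd) (r := d) (by omega) c hc
  have h1 : ∑ ν ∈ NI I d, c ν • ∑ i ∈ I \ dm ν, (rel ν i : Alg P H) =
      ∑ ν ∈ NI I d, c ν • (xm ν : Alg P H) +
      ∑ ν ∈ NI I d, c ν • ∑ i ∈ I \ dm ν, ∑ j, (xm (insert (i, j) ν) : Alg P H) := by
    rw [← Finset.sum_add_distrib]
    apply Finset.sum_congr rfl
    intro ν hν
    rw [mem_NI] at hν
    rw [← smul_add]
    congr 1
    have hcard : (I \ dm ν).card = 1 := by
      rw [Finset.card_sdiff_of_subset (dm_subset hν.1), card_dm hν.1.1, hI, hν.2]; omega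
    simp only [rel_eq]
    rw [Finset.sum_add_distrib, Finset.sum_const, hcard, one_smul]
  have h2 : ∑ ν ∈ NI I d, c ν • ∑ i ∈ I \ dm ν, ∑ j, (xm (insert (i, j) ν) : Alg P H) = 0 := by
    rw [← adj]
    apply Finset.sum_eq_zero
    intro ν hν
    rw [mem_NI] at hν
    rw [hc ν hν.1 hν.2, zero_smul]
  rw [h1, h2, add_zero]
  rcases Nat.eq_zero_or_pos d with hd0 | hd0
  · subst hd0
    have : ∑ ν ∈ NI I 0, c ν • (xm ν : Alg P H) = 0 := by
      apply Finset.sum_eq_zero
      intro ν hν
      rw [mem_NI] at hν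
      rw [hh ν hν.1 hν.2]
      have : ν = ∅ := Finset.card_eq_zero.mp hν.2
      subst this
      simp [bd]
    rw [this]
    exact Submodule.zero_mem _
  · obtain ⟨k, rfl⟩ : ∃ k, d = k + 1 := ⟨d - 1, by omega⟩
    have h3 : ∑ ν ∈ NI I (k + 1), c ν • (xm ν : Alg P H) =
        ∑ ν ∈ NI I (k + 1), bd h ν • (xm ν : Alg P H) := by
      apply Finset.sum_congr rfl
      intro ν hν
      rw [mem_NI] at hν
      rw [hh ν hν.1 hν.2]
    rw [h3, adj]
    apply Submodule.sum_mem
    intro κ hκ
    rw [mem_NI] at hκ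
    apply Submodule.smul_mem
    have hcard : (I \ dm κ).card = 2 := by
      rw [Finset.card_sdiff_of_subset (dm_subset hκ.1), card_dm hκ.1.1, hI, hκ.2]; omega
    have h4 : ∑ i ∈ I \ dm κ, ∑ j, (xm (insert (i, j) κ) : Alg P H) =
        ∑ i ∈ I \ dm κ, (rel κ i : Alg P H) := by
      simp only [rel_eq]
      rw [Finset.sum_add_distrib, Finset.sum_const, hcard, two_smul, two_smul_zero', zero_add]
    rw [h4]
    apply Submodule.sum_mem
    intro i _
    exact Submodule.subset_span ⟨κ, i, by omega, rfl⟩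

/-- shape of the elements of `Ls (d+1)` -/
theorem Ls_shape (d : ℕ) {f : Alg P H} (hf : f ∈ Ls P H (d + 1)) :
    ∃ (c : Finset P → Finset (P × H) → ZMod 2) (g : Alg P H), g ∈ Ls P H d ∧
      f = g + ∑ I ∈ Finset.univ.filter (fun I : Finset P => I.card = d + 1),
        ∑ ν ∈ NI I d, c I ν • ∑ i ∈ I \ dm ν, (rel ν i : Alg P H) := by
  classical
  unfold Ls at hf
  induction hf using Submodule.span_induction with
  | mem x hx =>
    obtain ⟨ν, i, hν, rfl⟩ := hx
    by_cases h1 : ν.card + 1 ≤ d
    · refine ⟨fun _ _ => 0, rel ν i, Submodule.subset_span ⟨ν, i, h1, rfl⟩, ?_⟩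
      simp
    · by_cases h2 : IsM ν ∧ i ∉ dm ν
      · have hcard : ν.card = d := by omega
        set I := insert i (dm ν) with hIdef
        have hIc : I.card = d + 1 := by
          rw [hIdef, Finset.card_insert_of_notMem h2.2, card_dm h2.1, hcard]
        have hνI : ν ∈ NI I d := by
          rw [mem_NI]
          refine ⟨⟨h2.1, fun e he => ?_⟩, hcard⟩
          exact Finset.mem_insert_of_mem (Finset.mem_image.mpr ⟨e, he, rfl⟩)
        have hsd : I \ dm ν = {i} := by
          rw [hIdef]
          ext x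
          simp only [Finset.mem_sdiff, Finset.mem_insert, Finset.mem_singleton]
          constructor
          · rintro ⟨h | h, h'⟩
            · exact h
            · exact absurd h h'
          · rintro rfl
            exact ⟨Or.inl rfl, h2.2⟩
        refine ⟨fun I' ν' => if I' = I ∧ ν' = ν then 1 else 0, 0, Submodule.zero_mem _, ?_⟩
        rw [zero_add]
        rw [Finset.sum_eq_single I, Finset.sum_eq_single ν]
        · beta_reduce
          rw [if_pos ⟨rfl, rfl⟩, one_smul, hsd, Finset.sum_singleton]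
        · intro ν' _ hne
          beta_reduce
          rw [if_neg (fun h => hne h.2), zero_smul]
        · intro h; exact absurd hνI h
        · intro I' _ hne
          apply Finset.sum_eq_zero
          intro ν' _
          beta_reduce
          rw [if_neg (fun h => hne h.1), zero_smul]
        · intro h
          exact absurd (Finset.mem_filter.mpr ⟨Finset.mem_univ I, hIc⟩) h
      · have hz : (rel ν i : Alg P H) = 0 := by
          by_cases h3 : IsM ν
          · have hi : i ∈ dm ν := by
              by_contra h4; exact h2 ⟨h3, h4⟩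
            obtain ⟨e, he, hei⟩ := Finset.mem_image.mp hi
            rw [rel_eq, Finset.sum_eq_single e.2]
            · have : (i, e.2) = e := by rw [← hei]
              rw [this, Finset.insert_eq_of_mem he]
              exact two_smul_zero' _
            · intro j _ hj
              apply xm_eq_zero
              intro hm
              have := hm (i, j) (Finset.mem_insert_self _ _) e (Finset.mem_insert_of_mem he)
                (Or.inl hei.symm)
              exact hj (congrArg Prod.snd this)
            · intro h; exact absurd (Finset.mem_univ _) h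
          · unfold rel
            rw [xm_eq_zero h3, zero_mul]
        rw [hz]
        exact ⟨fun _ _ => 0, 0, Submodule.zero_mem _, by simp⟩
  | zero => exact ⟨fun _ _ => 0, 0, Submodule.zero_mem _, by simp⟩
  | add x y _ _ hx hy =>
    obtain ⟨c, g, hg, hxe⟩ := hx
    obtain ⟨c', g', hg', hye⟩ := hy
    refine ⟨fun I ν => c I ν + c' I ν, g + g', Submodule.add_mem _ hg hg', ?_⟩
    simp only [add_smul, Finset.sum_add_distrib]
    rw [hxe, hye]
    abel
  | smul a x _ hx =>
    obtain ⟨c, g, hg, hxe⟩ := hx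
    refine ⟨fun I ν => a * c I ν, a • g, Submodule.smul_mem _ _ hg, ?_⟩
    simp only [mul_smul, ← Finset.smul_sum]
    rw [hxe, smul_add]

theorem coef_rel {μ : Finset (P × H)} (hμ : IsM μ) {ν : Finset (P × H)} {i : P}
    (hcard : μ.card = ν.card + 1) :
    coef μ (rel ν i : Alg P H) = ∑ j, if insert (i, j) ν = μ then (1 : ZMod 2) else 0 := by
  classical
  rw [rel_eq, map_add, map_sum, coef_xm hμ, if_neg, zero_add]
  · apply Finset.sum_congr rfl
    intro j _
    rw [coef_xm hμ]
  · rintro rfl
    omega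

/-- the key descent property -/
theorem Ls_descend (d : ℕ) (hd : (d + 2) * (d + 1) ≤ Fintype.card H) {f : Alg P H}
    (hf : f ∈ Ls P H (d + 1)) (hf2 : f ∈ Adeg P H d) : f ∈ Ls P H d := by
  classical
  obtain ⟨c, g, hg, rfl⟩ := Ls_shape d hf
  apply Submodule.add_mem _ hg
  apply Submodule.sum_mem
  intro I hI
  have hIc : I.card = d + 1 := (Finset.mem_filter.mp hI).2
  apply top_mem d hd I hIc
  intro μ hμ hμc
  have h0 := coef_Adeg hμ.1 (by omega : d < μ.card) hf2
  rw [map_add, coef_Adeg hμ.1 (by omega : d < μ.card) (Ls_le_Adeg d hg), zero_add, map_sum] at h0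
  have hdmμ : dm μ = I := Finset.eq_of_subset_of_card_le (dm_subset hμ)
    (by rw [card_dm hμ.1, hμc, hIc])
  rw [Finset.sum_eq_single I] at h0
  · rw [map_sum] at h0
    rw [← h0]
    have h1 : ∀ ν ∈ NI I d, coef μ (c I ν • ∑ i ∈ I \ dm ν, (rel ν i : Alg P H)) =
        ∑ e ∈ (I \ dm ν) ×ˢ (Finset.univ : Finset H),
          if insert e ν = μ then c I ν else 0 := by
      intro ν hν
      rw [mem_NI] at hν
      rw [map_smul, map_sum, smul_eq_mul, Finset.sum_product, Finset.mul_sum]
      apply Finset.sum_congr rfl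
      intro i hi
      rw [coef_rel hμ.1 (by omega), Finset.mul_sum]
      apply Finset.sum_congr rfl
      intro j _
      split_ifs <;> simp
    rw [Finset.sum_congr rfl h1]
    unfold bd
    rw [Finset.sum_sigma']
    have h2 : ∑ x ∈ (NI I d).sigma (fun ν => (I \ dm ν) ×ˢ (Finset.univ : Finset H)),
        (if insert x.2 x.1 = μ then c I x.1 else 0) =
        ∑ x ∈ ((NI I d).sigma (fun ν => (I \ dm ν) ×ˢ (Finset.univ : Finset H))).filter
          (fun x => insert x.2 x.1 = μ), c I x.1 := by
      rw [Finset.sum_filter]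
    rw [h2]
    symm
    apply Finset.sum_bij' (fun x _ => x.2)
      (fun e _ => (⟨μ.erase e, e⟩ : (_ : Finset (P × H)) × (P × H)))
    · rintro ⟨ν, e⟩ h
      simp only [Finset.mem_filter] at h
      rw [← h.2]; exact Finset.mem_insert_self _ _
    · intro e he
      simp only [Finset.mem_filter, Finset.mem_sigma, Finset.mem_product, Finset.mem_univ,
        and_true, mem_NI, Finset.mem_sdiff]
      refine ⟨⟨⟨hμ.subset (Finset.erase_subset _ _), ?_⟩, hμ.2 e he, ?_⟩,
        Finset.insert_erase he⟩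
      · rw [Finset.card_erase_of_mem he, hμc]; rfl
      · intro h
        obtain ⟨f, hf, hfe⟩ := Finset.mem_image.mp h
        have := hμ.1 f (Finset.mem_of_mem_erase hf) e he (Or.inl hfe)
        exact (Finset.mem_erase.mp hf).1 this
    · rintro ⟨ν, e⟩ h
      simp only [Finset.mem_filter, Finset.mem_sigma, Finset.mem_product, Finset.mem_univ,
        and_true, mem_NI, Finset.mem_sdiff] at h
      have hne : e ∉ ν := fun he => h.1.2.2 (Finset.mem_image.mpr ⟨e, he, rfl⟩)
      simp only
      rw [← h.2, Finset.erase_insert hne]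
    · intro e _
      rfl
    · rintro ⟨ν, e⟩ h
      simp only [Finset.mem_filter, Finset.mem_sigma, Finset.mem_product, Finset.mem_univ,
        and_true, mem_NI, Finset.mem_sdiff] at h
      have hne : e ∉ ν := fun he => h.1.2.2 (Finset.mem_image.mpr ⟨e, he, rfl⟩)
      simp only
      rw [← h.2, Finset.erase_insert hne]
  · intro I' hI' hne
    rw [map_sum]
    apply Finset.sum_eq_zero
    intro ν hν
    rw [mem_NI] at hν
    rw [map_smul, map_sum]
    have : ∑ i ∈ I' \ dm ν, coef μ (rel ν i : Alg P H) = 0 := by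
      apply Finset.sum_eq_zero
      intro i hi
      rw [coef_rel hμ.1 (by omega)]
      apply Finset.sum_eq_zero
      intro j _
      rw [if_neg]
      intro heq
      apply hne
      have hI'c : I'.card = d + 1 := (Finset.mem_filter.mp hI').2
      have h3 : dm μ ⊆ I' := by
        rw [← heq]
        intro x hx
        obtain ⟨e, he, rfl⟩ := Finset.mem_image.mp hx
        rcases Finset.mem_insert.mp he with rfl | he
        · exact (Finset.mem_sdiff.mp hi).1
        · exact hν.1.2 e he
      rw [hdmμ] at h3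
      exact (Finset.eq_of_subset_of_card_le h3 (by omega)).symm
    rw [this, smul_zero]
  · intro h; exact absurd hI h

theorem Ls_descend' {D k : ℕ} (hD : (D + 1) * D ≤ Fintype.card H) (hk : k ≤ D) {f : Alg P H}
    (hf : f ∈ Ls P H D) (hf2 : f ∈ Adeg P H k) : f ∈ Ls P H k := by
  obtain ⟨n, rfl⟩ := Nat.exists_eq_add_of_le hk
  induction n with
  | zero => exact hf
  | succ n ih =>
    apply ih
    · refine le_trans ?_ hD
      apply Nat.mul_le_mul <;> omega
    · omega
    · apply Ls_descend (k + n) _ hf (Adeg_mono (by omega) hf2)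
      exact hD

theorem Ls_zero : Ls P H 0 = ⊥ := by
  unfold Ls
  rw [Submodule.span_eq_bot]
  rintro f ⟨ν, i, h, rfl⟩
  omega

theorem one_notMem {D : ℕ} (hD : (D + 1) * D ≤ Fintype.card H) : (1 : Alg P H) ∉ Ls P H D := by
  intro h
  have h1 := Ls_descend' hD (Nat.zero_le _) h (one_mem_Adeg 0)
  rw [Ls_zero, Submodule.mem_bot] at h1
  have : (1 : Alg P H) ⟨∅, by intro e he; simp at he⟩ = 0 := by rw [h1]; rfl
  simp at this

end Pool.Agent.Lib.MP0b520b
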