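import Mathlib

/-!
Definitions used in the statement: Polynomial Calculus refutations, their size, and the perfect
matching formula of a graph.
-/

namespace Pool.Agent.Lib.MP0b520b

open MvPolynomial

/-- A Polynomial Calculus refutation over `F` of the set `Q` of polynomials in the variables `ι`:
a list of polynomials, each of which lies in `Q`, or is a linear combination of two earlier ones,
or is a variable times an earlier one, and whose last element is `1`. -/
structure PCRefutation {ι F : Type} [Field F] (Q : Set (MvPolynomial ι F)) where
  lines : List (MvPolynomial ι F)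
  valid : ∀ i : Fin lines.length,
    lines.get i ∈ Q ∨
    (∃ j k : Fin lines.length, j < i ∧ k < i ∧
      ∃ a b : F, lines.get i = C a * lines.get j + C b * lines.get k) ∨
    (∃ j : Fin lines.length, j < i ∧ ∃ x : ι, lines.get i = X x * lines.get j)
  last : lines.getLast? = some 1

/-- The size of a refutation: the total number of monomials, counted over all lines. -/
def PCRefutation.size {ι F : Type} [Field F] {Q : Set (MvPolynomial ι F)}
    (π : PCRefutation Q) : ℕ :=
  (π.lines.map (fun p => p.support.card)).sum

open Classical in
/-- The perfect matching formula `PM(G)` over `F`, in the variables `x_e`, `e` an edge of `G`: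
the polynomials `x_e ^ 2 - x_e`, the polynomials `∑_{e ∋ v} x_e - 1`, and the polynomials
`x_e * x_f` for distinct edges `e, f` with a common endpoint. -/
def PMFormula (F : Type) [Field F] {V : Type} [Fintype V] (G : SimpleGraph V) :
    Set (MvPolynomial G.edgeSet F) :=
  {p | (∃ e : G.edgeSet, p = X e ^ 2 - X e) ∨
    (∃ v : V, p = (∑ e ∈ Finset.univ.filter (fun e : G.edgeSet => v ∈ (e : Sym2 V)), X e) - 1) ∨
    (∃ e f : G.edgeSet, e ≠ f ∧ (∃ v : V, v ∈ (e : Sym2 V) ∧ v ∈ (f : Sym2 V)) ∧ p = X e * X f)}

end Pool.Agent.Lib.MP0b520b
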