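import Mathlib
import Pool.Agent.Lib.MP_0b520b_lc.Defs
import Pool.Agent.Lib.MP_0b520b_lc.Alg

namespace Pool.Agent.Lib.MP0b520b

open MvPolynomial

variable {P H : Type} [DecidableEq P] [DecidableEq H] [Fintype P] [Fintype H]

/-- a substitution under which all lines have low degree contradicts the degree lower bound -/
theorem no_refutation {ι : Type} {Q : Set (MvPolynomial ι (ZMod 2))} (π : PCRefutation Q)
    (θ : MvPolynomial ι (ZMod 2) →ₐ[ZMod 2] Alg P H) (D : ℕ)
    (hcard : (D + 3) * (D + 2) ≤ Fintype.card H)
    (hQ : ∀ q ∈ Q, θ q ∈ Ls P H (D + 2))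
    (hX : ∀ e, θ (X e) ∈ Adeg P H 2)
    (hdeg : ∀ p ∈ π.lines, θ p ∈ Adeg P H D) : False := by
  have key : ∀ n : ℕ, ∀ i : Fin π.lines.length, i.val = n →
      θ (π.lines.get i) ∈ Ls P H (D + 2) := by
    intro n
    induction n using Nat.strong_induction_on with
    | _ n ih =>
      intro i hi
      rcases π.valid i with h | ⟨j, k, hj, hk, a, b, h⟩ | ⟨j, hj, x, h⟩
      · exact hQ _ h
      · rw [h, map_add, map_mul, map_mul]
        have h1 := ih j.val (by omega) j rfl
        have h2 := ih k.val (by omega) k rfl
        have hC : ∀ c : ZMod 2, θ (C c) = algebraMap (ZMod 2) (Alg P H) c := fun c => by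
          have := θ.commutes c
          rw [← this]; rfl
        rw [hC, hC, ← Algebra.smul_def, ← Algebra.smul_def]
        exact Submodule.add_mem _ (Submodule.smul_mem _ _ h1) (Submodule.smul_mem _ _ h2)
      · rw [h, map_mul, mul_comm]
        have h1 := ih j.val (by omega) j rfl
        have h2 := Ls_descend' hcard (by omega : D ≤ D + 2) h1
          (hdeg _ (List.get_mem _ _))
        exact Ls_mul h2 (hX x)
  have hlast := π.last
  have hne : π.lines ≠ [] := by
    intro h
    rw [h] at hlast
    simp at hlast
  have hl : π.lines.getLast hne = 1 := by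
    rw [List.getLast?_eq_some_getLast hne] at hlast
    exact Option.some.inj hlast
  have hpos : 0 < π.lines.length := List.length_pos_iff.mpr hne
  have h1 := key (π.lines.length - 1) ⟨π.lines.length - 1, by omega⟩ rfl
  have h2 : π.lines.get ⟨π.lines.length - 1, by omega⟩ = 1 := by
    rw [← hl, List.getLast_eq_getElem]
    rfl
  rw [h2, map_one] at h1
  exact one_notMem hcard h1

end Pool.Agent.Lib.MP0b520b
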