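import Mathlib
import Pool.Agent.Lib.MP_0b520b_lc.Alg

/-!
The template: a low degree description of matchings extending a partial matching between pigeons
and holes.  Holes `v j` and slack vertices `c j` are arranged along a line.
-/

namespace Pool.Agent.Lib.MP0b520b

open Finset

set_option linter.unusedSectionVars false

/-- positions of the template -/
inductive Loc (m n : ℕ)
  | u (i : Fin m)
  | v (j : Fin n)
  | c (j : Fin n)
deriving DecidableEq

variable {m n : ℕ}

/-- number of used holes of index `j`, mod 2 -/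
def Uf (j : ℕ) (σ : Finset (Fin m × Fin n)) : ZMod 2 :=
  ((σ.filter (fun e => e.2.val = j)).card : ZMod 2)

/-- number of used holes of index below `j`, mod 2 -/
def Zf (j : ℕ) (σ : Finset (Fin m × Fin n)) : ZMod 2 :=
  ((σ.filter (fun e => e.2.val < j)).card : ZMod 2)

theorem Zf_zero (σ : Finset (Fin m × Fin n)) : Zf 0 σ = 0 := by
  simp [Zf]

theorem Zf_succ (j : ℕ) (σ : Finset (Fin m × Fin n)) : Zf (j + 1) σ = Zf j σ + Uf j σ := by
  unfold Zf Uf
  rw [← Nat.cast_add, ← Finset.card_union_of_disjoint]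
  · congr 2
    ext e
    simp only [Finset.mem_filter, Finset.mem_union]
    constructor
    · rintro ⟨h1, h2⟩
      rcases Nat.lt_succ_iff_lt_or_eq.mp h2 with h | h
      · exact Or.inl ⟨h1, h⟩
      · exact Or.inr ⟨h1, h⟩
    · rintro (⟨h1, h2⟩ | ⟨h1, h2⟩)
      · exact ⟨h1, by omega⟩
      · exact ⟨h1, by omega⟩
  · rw [Finset.disjoint_filter]
    intro e _ h1 h2
    omega

theorem Uf_eq {σ : Finset (Fin m × Fin n)} (hσ : IsM σ) (j : Fin n) :
    Uf j.val σ = if ∃ i, (i, j) ∈ σ then 1 else 0 := by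
  classical
  unfold Uf
  split_ifs with h
  · obtain ⟨i, hi⟩ := h
    have : σ.filter (fun e => e.2.val = j.val) = {(i, j)} := by
      ext e
      simp only [Finset.mem_filter, Finset.mem_singleton]
      constructor
      · rintro ⟨h1, h2⟩
        exact hσ e h1 (i, j) hi (Or.inr (Fin.ext h2))
      · rintro rfl
        exact ⟨hi, rfl⟩
    rw [this]
    simp
  · have : σ.filter (fun e => e.2.val = j.val) = ∅ := by
      apply Finset.filter_eq_empty_iff.mpr
      intro e he h2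
      apply h
      refine ⟨e.1, ?_⟩
      have : (e.1, j) = e := Prod.ext rfl (Fin.ext h2).symm
      rw [this]; exact he
    rw [this]
    simp

theorem z2 (x : ZMod 2) : x = 0 ∨ x = 1 := by
  revert x; decide

/-- partner at the level of positions -/
noncomputable def ptl (σ : Finset (Fin m × Fin n)) : Loc m n → Loc m n
  | .u i => by
    classical
    exact if h : ∃ j, (i, j) ∈ σ then .v h.choose else .u i
  | .v j => by
    classical
    exact if h : ∃ i, (i, j) ∈ σ then .u h.choose else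
      if Zf j.val σ = 0 then .c j else .c ⟨j.val - 1, by omega⟩
  | .c j =>
    if Zf (j.val + 1) σ = 0 then
      (if Zf j.val σ = 0 then .v j else .c ⟨j.val - 1, by omega⟩)
    else if h : j.val + 1 < n then
      (if Uf (j.val + 1) σ = 0 then .v ⟨j.val + 1, h⟩ else .c ⟨j.val + 1, h⟩)
    else .c j

theorem ptl_u_eq {σ : Finset (Fin m × Fin n)} (hσ : IsM σ) {i : Fin m} {j : Fin n}
    (h : (i, j) ∈ σ) : ptl σ (.u i) = .v j := by
  have hex : ∃ j, (i, j) ∈ σ := ⟨j, h⟩
  simp only [ptl, dif_pos hex]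
  have h1 := hσ _ hex.choose_spec _ h (Or.inl rfl)
  have h2 : hex.choose = j := congrArg Prod.snd h1
  rw [h2]

theorem ptl_u_none {σ : Finset (Fin m × Fin n)} {i : Fin m} (h : ¬ ∃ j, (i, j) ∈ σ) :
    ptl σ (.u i) = .u i := by
  simp only [ptl, dif_neg h]

theorem ptl_v_eq {σ : Finset (Fin m × Fin n)} (hσ : IsM σ) {i : Fin m} {j : Fin n}
    (h : (i, j) ∈ σ) : ptl σ (.v j) = .u i := by
  have hex : ∃ i, (i, j) ∈ σ := ⟨i, h⟩
  simp only [ptl, dif_pos hex]
  have h1 := hσ _ hex.choose_spec _ h (Or.inr rfl)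
  have h2 : hex.choose = i := congrArg Prod.fst h1
  rw [h2]

theorem ptl_v0 {σ : Finset (Fin m × Fin n)} (hσ : IsM σ) {j : Fin n} (h : Uf j.val σ = 0)
    (hz : Zf j.val σ = 0) : ptl σ (.v j) = .c j := by
  rw [Uf_eq hσ] at h
  have h' : ¬ ∃ i, (i, j) ∈ σ := by
    intro h'; rw [if_pos h'] at h; exact one_ne_zero h
  simp only [ptl, dif_neg h', if_pos hz]

theorem ptl_v1 {σ : Finset (Fin m × Fin n)} (hσ : IsM σ) {j : Fin n} (h : Uf j.val σ = 0)
    (hz : Zf j.val σ = 1) : ptl σ (.v j) = .c ⟨j.val - 1, by omega⟩ := by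
  rw [Uf_eq hσ] at h
  have h' : ¬ ∃ i, (i, j) ∈ σ := by
    intro h'; rw [if_pos h'] at h; exact one_ne_zero h
  have hz' : Zf j.val σ ≠ 0 := by rw [hz]; exact one_ne_zero
  simp only [ptl, dif_neg h', if_neg hz']

theorem ptl_c00 {σ : Finset (Fin m × Fin n)} {j : Fin n} (h : Zf (j.val + 1) σ = 0)
    (hz : Zf j.val σ = 0) : ptl σ (.c j) = .v j := by
  simp only [ptl, if_pos h, if_pos hz]

theorem ptl_c01 {σ : Finset (Fin m × Fin n)} {j : Fin n} (h : Zf (j.val + 1) σ = 0)
    (hz : Zf j.val σ = 1) : ptl σ (.c j) = .c ⟨j.val - 1, by omega⟩ := by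
  have hz' : Zf j.val σ ≠ 0 := by rw [hz]; exact one_ne_zero
  simp only [ptl, if_pos h, if_neg hz']

theorem ptl_c1v {σ : Finset (Fin m × Fin n)} {j : Fin n} (h : Zf (j.val + 1) σ = 1)
    (hn : j.val + 1 < n) (hu : Uf (j.val + 1) σ = 0) : ptl σ (.c j) = .v ⟨j.val + 1, hn⟩ := by
  have h' : Zf (j.val + 1) σ ≠ 0 := by rw [h]; exact one_ne_zero
  simp only [ptl, if_neg h', dif_pos hn, if_pos hu]

theorem ptl_c1c {σ : Finset (Fin m × Fin n)} {j : Fin n} (h : Zf (j.val + 1) σ = 1)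
    (hn : j.val + 1 < n) (hu : Uf (j.val + 1) σ = 1) : ptl σ (.c j) = .c ⟨j.val + 1, hn⟩ := by
  have h' : Zf (j.val + 1) σ ≠ 0 := by rw [h]; exact one_ne_zero
  have hu' : Uf (j.val + 1) σ ≠ 0 := by rw [hu]; exact one_ne_zero
  simp only [ptl, if_neg h', dif_pos hn, if_neg hu']

theorem ptl_c1l {σ : Finset (Fin m × Fin n)} {j : Fin n} (h : Zf (j.val + 1) σ = 1)
    (hn : ¬ j.val + 1 < n) : ptl σ (.c j) = .c j := by
  have h' : Zf (j.val + 1) σ ≠ 0 := by rw [h]; exact one_ne_zero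
  simp only [ptl, if_neg h', dif_neg hn]

theorem pos_of_Zf {σ : Finset (Fin m × Fin n)} {j : Fin n} (h : Zf j.val σ = 1) :
    0 < j.val := by
  rcases Nat.eq_zero_or_pos j.val with h0 | h0
  · rw [h0, Zf_zero] at h; exact absurd h.symm one_ne_zero
  · exact h0

theorem ptl_invol {σ : Finset (Fin m × Fin n)} (hσ : IsM σ) (x : Loc m n) :
    ptl σ (ptl σ x) = x := by
  classical
  rcases x with i | j | j
  · by_cases h : ∃ j, (i, j) ∈ σ
    · obtain ⟨j, hj⟩ := h
      rw [ptl_u_eq hσ hj, ptl_v_eq hσ hj]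
    · rw [ptl_u_none h, ptl_u_none h]
  · by_cases h : ∃ i, (i, j) ∈ σ
    · obtain ⟨i, hi⟩ := h
      rw [ptl_v_eq hσ hi, ptl_u_eq hσ hi]
    · have hU : Uf j.val σ = 0 := by rw [Uf_eq hσ, if_neg h]
      rcases z2 (Zf j.val σ) with hz | hz
      · rw [ptl_v0 hσ hU hz, ptl_c00 _ hz]
        rw [Zf_succ, hU, hz, add_zero]
      · have hpos := pos_of_Zf hz
        rw [ptl_v1 hσ hU hz]
        have h1 : j.val - 1 + 1 = j.val := by omega
        rw [ptl_c1v (j := ⟨j.val - 1, by omega⟩) (by simp only; rw [h1]; exact hz)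
          (by simp only; omega) (by simp only; rw [h1]; exact hU)]
        congr 1
        exact Fin.ext h1
  · rcases z2 (Zf (j.val + 1) σ) with h1 | h1
    · rcases z2 (Zf j.val σ) with hz | hz
      · rw [ptl_c00 h1 hz, ptl_v0 hσ _ hz]
        have := Zf_succ j.val σ
        rw [h1, hz, zero_add] at this
        exact this.symm
      · have hpos := pos_of_Zf hz
        have hU : Uf j.val σ = 1 := by
          have := Zf_succ j.val σ
          rw [h1, hz] at this
          rcases z2 (Uf j.val σ) with h | h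
          · rw [h] at this; exact absurd this.symm (by simp)
          · exact h
        rw [ptl_c01 h1 hz]
        have h2 : j.val - 1 + 1 = j.val := by omega
        rw [ptl_c1c (j := ⟨j.val - 1, by omega⟩) (by simp only; rw [h2]; exact hz)
          (by simp only; omega) (by simp only; rw [h2]; exact hU)]
        congr 1
        exact Fin.ext h2
    · by_cases hn : j.val + 1 < n
      · rcases z2 (Uf (j.val + 1) σ) with hu | hu
        · rw [ptl_c1v h1 hn hu, ptl_v1 (j := ⟨j.val + 1, hn⟩) hσ hu h1]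
          congr 1
        · have h2 : Zf (j.val + 1 + 1) σ = 0 := by
            rw [Zf_succ, h1, hu]; decide
          rw [ptl_c1c h1 hn hu, ptl_c01 (j := ⟨j.val + 1, hn⟩) h2 h1]
          congr 1
      · rw [ptl_c1l h1 hn, ptl_c1l h1 hn]

/-- allowed adjacencies between positions -/
def ladj : Loc m n → Loc m n → Prop
  | .u _, .v _ => True
  | .v _, .u _ => True
  | .v _, .c _ => True
  | .c _, .v _ => True
  | .c _, .c _ => True
  | _, _ => False

theorem ptl_ladj {σ : Finset (Fin m × Fin n)} (hσ : IsM σ) (x : Loc m n) (hx : ptl σ x ≠ x) :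
    ladj x (ptl σ x) := by
  classical
  rcases x with i | j | j
  · by_cases h : ∃ j, (i, j) ∈ σ
    · obtain ⟨j, hj⟩ := h
      rw [ptl_u_eq hσ hj]; trivial
    · exact absurd (ptl_u_none h) hx
  · by_cases h : ∃ i, (i, j) ∈ σ
    · obtain ⟨i, hi⟩ := h
      rw [ptl_v_eq hσ hi]; trivial
    · have hU : Uf j.val σ = 0 := by rw [Uf_eq hσ, if_neg h]
      rcases z2 (Zf j.val σ) with hz | hz
      · rw [ptl_v0 hσ hU hz]; trivial
      · rw [ptl_v1 hσ hU hz]; trivial
  · rcases z2 (Zf (j.val + 1) σ) with h1 | h1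
    · rcases z2 (Zf j.val σ) with hz | hz
      · rw [ptl_c00 h1 hz]; trivial
      · rw [ptl_c01 h1 hz]; trivial
    · by_cases hn : j.val + 1 < n
      · rcases z2 (Uf (j.val + 1) σ) with hu | hu
        · rw [ptl_c1v h1 hn hu]; trivial
        · rw [ptl_c1c h1 hn hu]; trivial
      · exact absurd (ptl_c1l h1 hn) hx

theorem ptl_v_ne {σ : Finset (Fin m × Fin n)} (hσ : IsM σ) (j : Fin n) :
    ptl σ (.v j) ≠ .v j := by
  classical
  by_cases h : ∃ i, (i, j) ∈ σ
  · obtain ⟨i, hi⟩ := h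
    rw [ptl_v_eq hσ hi]; simp
  · have hU : Uf j.val σ = 0 := by rw [Uf_eq hσ, if_neg h]
    rcases z2 (Zf j.val σ) with hz | hz
    · rw [ptl_v0 hσ hU hz]; simp
    · rw [ptl_v1 hσ hU hz]; simp

theorem ptl_c_eq_iff {σ : Finset (Fin m × Fin n)} (j : Fin n) :
    ptl σ (.c j) = .c j ↔ (j.val + 1 = n ∧ Zf n σ = 1) := by
  constructor
  · intro h
    rcases z2 (Zf (j.val + 1) σ) with h1 | h1
    · rcases z2 (Zf j.val σ) with hz | hz
      · rw [ptl_c00 h1 hz] at h; simp at h
      · have := pos_of_Zf hz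
        rw [ptl_c01 h1 hz] at h
        simp only [Loc.c.injEq, Fin.ext_iff] at h
        omega
    · by_cases hn : j.val + 1 < n
      · rcases z2 (Uf (j.val + 1) σ) with hu | hu
        · rw [ptl_c1v h1 hn hu] at h; simp at h
        · rw [ptl_c1c h1 hn hu] at h
          simp only [Loc.c.injEq, Fin.ext_iff] at h
          omega
      · have : j.val + 1 = n := by have := j.isLt; omega
        exact ⟨this, by rw [this] at h1; exact h1⟩
  · rintro ⟨h1, h2⟩
    exact ptl_c1l (by rw [h1]; exact h2) (by omega)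

/-! ### Degrees -/

/-- the parity function as an element of the algebra -/
def ZA (j : ℕ) : Alg (Fin m) (Fin n) := fun σ => Zf j σ.1

def UA (j : ℕ) : Alg (Fin m) (Fin n) := fun σ => Uf j σ.1

theorem card_filter_eq (q : Fin m × Fin n → Prop) [DecidablePred q] :
    (fun σ : MT (Fin m) (Fin n) => ((σ.1.filter q).card : ZMod 2)) =
      ∑ e ∈ Finset.univ.filter q, (xm {e} : Alg (Fin m) (Fin n)) := by
  classical
  funext σ
  rw [Finset.sum_apply]
  simp only [xm, Finset.singleton_subset_iff]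
  rw [Finset.sum_boole]
  congr 2
  ext e
  simp only [Finset.mem_filter, Finset.mem_univ, true_and]
  tauto

theorem sum_xm_mem (q : Fin m × Fin n → Prop) [DecidablePred q] :
    ∑ e ∈ Finset.univ.filter q, (xm {e} : Alg (Fin m) (Fin n)) ∈ Adeg (Fin m) (Fin n) 1 :=
  Submodule.sum_mem _ (fun e _ => xm_mem_Adeg (by simp))

theorem ZA_mem (j : ℕ) : (ZA j : Alg (Fin m) (Fin n)) ∈ Adeg (Fin m) (Fin n) 1 := by
  have : (ZA j : Alg (Fin m) (Fin n)) = ∑ e ∈ Finset.univ.filter (fun e => e.2.val < j),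
      (xm {e} : Alg (Fin m) (Fin n)) := by
    rw [← card_filter_eq]
    rfl
  rw [this]
  exact sum_xm_mem _

theorem UA_mem (j : ℕ) : (UA j : Alg (Fin m) (Fin n)) ∈ Adeg (Fin m) (Fin n) 1 := by
  have : (UA j : Alg (Fin m) (Fin n)) = ∑ e ∈ Finset.univ.filter (fun e => e.2.val = j),
      (xm {e} : Alg (Fin m) (Fin n)) := by
    rw [← card_filter_eq]
    rfl
  rw [this]
  exact sum_xm_mem _

/-- `ZA n` is in the span of the pigeon axioms when the number of pigeons is even -/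
theorem ZA_last_mem (hm : Even m) : (ZA n : Alg (Fin m) (Fin n)) ∈ Ls (Fin m) (Fin n) 1 := by
  have h1 : (ZA n : Alg (Fin m) (Fin n)) = ∑ e ∈ Finset.univ.filter (fun e : Fin m × Fin n =>
      e.2.val < n), (xm {e} : Alg (Fin m) (Fin n)) := by
    rw [← card_filter_eq]
    rfl
  have h2 : Finset.univ.filter (fun e : Fin m × Fin n => e.2.val < n) =
      (Finset.univ : Finset (Fin m)) ×ˢ (Finset.univ : Finset (Fin n)) := by
    ext e
    simp
  rw [h1, h2, Finset.sum_product]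
  have h3 : ∑ i : Fin m, ∑ j : Fin n, (xm {(i, j)} : Alg (Fin m) (Fin n)) =
      ∑ i : Fin m, (rel ∅ i : Alg (Fin m) (Fin n)) := by
    have h4 : ∀ i : Fin m, (rel ∅ i : Alg (Fin m) (Fin n)) =
        1 + ∑ j : Fin n, (xm {(i, j)} : Alg (Fin m) (Fin n)) := by
      intro i
      unfold rel
      rw [xm_empty, one_mul]
    simp only [h4]
    rw [Finset.sum_add_distrib]
    have h5 : ∑ _i : Fin m, (1 : Alg (Fin m) (Fin n)) = 0 := by
      obtain ⟨k, hk⟩ := hm
      rw [Finset.sum_const, Finset.card_univ, Fintype.card_fin, hk, add_smul, two_smul_zero']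
    rw [h5, zero_add]
  rw [h3]
  apply Submodule.sum_mem
  intro i _
  exact Submodule.subset_span ⟨∅, i, by simp, rfl⟩

/-- indicator of a pair of positions being matched -/
noncomputable def XL (x y : Loc m n) : Alg (Fin m) (Fin n) :=
  fun σ => if ptl σ.1 x = y then 1 else 0

theorem XL_symm (x y : Loc m n) : XL x y = XL y x := by
  funext σ
  unfold XL
  have : ptl σ.1 x = y ↔ ptl σ.1 y = x := by
    constructor
    · intro h; rw [← h]; exact ptl_invol σ.2 x
    · intro h; rw [← h]; exact ptl_invol σ.2 y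
  simp only [this]

theorem XL_uv (i : Fin m) (j : Fin n) : XL (.u i) (.v j) = xm {(i, j)} := by
  funext σ
  unfold XL xm
  by_cases h : ∃ j', (i, j') ∈ σ.1
  · obtain ⟨j', hj'⟩ := h
    rw [ptl_u_eq σ.2 hj']
    by_cases hjj : j' = j
    · subst hjj
      rw [if_pos rfl, if_pos (by simpa using hj')]
    · rw [if_neg (by simpa using hjj), if_neg]
      intro h
      have h' : (i, j) ∈ σ.1 := by simpa using h
      exact hjj (congrArg Prod.snd (σ.2 _ hj' _ h' (Or.inl rfl)))
  · rw [ptl_u_none h, if_neg (by simp), if_neg]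
    intro h'
    exact h ⟨j, by simpa using h'⟩

theorem XL_uu (i i' : Fin m) (h : i ≠ i') : XL (n := n) (.u i) (.u i') = 0 := by
  funext σ
  unfold XL
  rw [if_neg, Pi.zero_apply]
  by_cases h' : ∃ j', (i, j') ∈ σ.1
  · obtain ⟨j', hj'⟩ := h'
    rw [ptl_u_eq σ.2 hj']; simp
  · rw [ptl_u_none h']; simpa using h

theorem XL_uc (i : Fin m) (j : Fin n) : XL (.u i) (.c j) = 0 := by
  funext σ
  unfold XL
  rw [if_neg, Pi.zero_apply]
  by_cases h' : ∃ j', (i, j') ∈ σ.1
  · obtain ⟨j', hj'⟩ := h'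
    rw [ptl_u_eq σ.2 hj']; simp
  · rw [ptl_u_none h']; simp

theorem XL_vv (j j' : Fin n) : XL (m := m) (.v j) (.v j') = 0 := by
  classical
  funext σ
  unfold XL
  rw [if_neg, Pi.zero_apply]
  by_cases h : ∃ i, (i, j) ∈ σ.1
  · obtain ⟨i, hi⟩ := h
    rw [ptl_v_eq σ.2 hi]; simp
  · have hU : Uf j.val σ.1 = 0 := by rw [Uf_eq σ.2, if_neg h]
    rcases z2 (Zf j.val σ.1) with hz | hz
    · rw [ptl_v0 σ.2 hU hz]; simp
    · rw [ptl_v1 σ.2 hU hz]; simp

theorem XL_vc_same (j : Fin n) :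
    XL (m := m) (.v j) (.c j) = (1 + UA j.val) * (1 + ZA j.val) := by
  classical
  funext σ
  unfold XL UA ZA
  simp only [Pi.mul_apply, Pi.add_apply, Pi.one_apply]
  by_cases h : ∃ i, (i, j) ∈ σ.1
  · have hU : Uf j.val σ.1 = 1 := by rw [Uf_eq σ.2, if_pos h]
    obtain ⟨i, hi⟩ := h
    rw [ptl_v_eq σ.2 hi, if_neg (by simp), hU]
    have : (1 + 1 : ZMod 2) = 0 := by decide
    rw [this, zero_mul]
  · have hU : Uf j.val σ.1 = 0 := by rw [Uf_eq σ.2, if_neg h]
    rcases z2 (Zf j.val σ.1) with hz | hz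
    · rw [ptl_v0 σ.2 hU hz, if_pos rfl, hU, hz]; simp
    · have := pos_of_Zf hz
      rw [ptl_v1 σ.2 hU hz, if_neg, hU, hz]
      · decide
      · simp only [Loc.c.injEq, Fin.ext_iff]; omega

theorem XL_vc_prev (j : Fin n) (j' : Fin n) (hj : j'.val + 1 = j.val) :
    XL (m := m) (.v j) (.c j') = (1 + UA j.val) * ZA j.val := by
  classical
  funext σ
  unfold XL UA ZA
  simp only [Pi.mul_apply, Pi.add_apply, Pi.one_apply]
  by_cases h : ∃ i, (i, j) ∈ σ.1
  · have hU : Uf j.val σ.1 = 1 := by rw [Uf_eq σ.2, if_pos h]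
    obtain ⟨i, hi⟩ := h
    rw [ptl_v_eq σ.2 hi, if_neg (by simp), hU]
    have : (1 + 1 : ZMod 2) = 0 := by decide
    rw [this, zero_mul]
  · have hU : Uf j.val σ.1 = 0 := by rw [Uf_eq σ.2, if_neg h]
    rcases z2 (Zf j.val σ.1) with hz | hz
    · rw [ptl_v0 σ.2 hU hz, if_neg, hU, hz]
      · simp
      · simp only [Loc.c.injEq, Fin.ext_iff]; omega
    · rw [ptl_v1 σ.2 hU hz, if_pos, hU, hz]
      · decide
      · simp only [Loc.c.injEq, Fin.ext_iff]; omega

theorem XL_vc_other (j : Fin n) (j' : Fin n) (h1 : j ≠ j') (h2 : j'.val + 1 ≠ j.val) :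
    XL (m := m) (.v j) (.c j') = 0 := by
  classical
  funext σ
  unfold XL
  rw [if_neg, Pi.zero_apply]
  by_cases h : ∃ i, (i, j) ∈ σ.1
  · obtain ⟨i, hi⟩ := h
    rw [ptl_v_eq σ.2 hi]; simp
  · have hU : Uf j.val σ.1 = 0 := by rw [Uf_eq σ.2, if_neg h]
    rcases z2 (Zf j.val σ.1) with hz | hz
    · rw [ptl_v0 σ.2 hU hz]; simpa using h1
    · have := pos_of_Zf hz
      rw [ptl_v1 σ.2 hU hz]
      simp only [Loc.c.injEq, Fin.ext_iff]; omega

theorem XL_cc_next (j : Fin n) (hn : j.val + 1 < n) :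
    XL (m := m) (.c j) (.c ⟨j.val + 1, hn⟩) = ZA (j.val + 1) * UA (j.val + 1) := by
  funext σ
  unfold XL UA ZA
  simp only [Pi.mul_apply]
  rcases z2 (Zf (j.val + 1) σ.1) with h1 | h1
  · rw [h1, zero_mul, if_neg]
    rcases z2 (Zf j.val σ.1) with hz | hz
    · rw [ptl_c00 h1 hz]; simp
    · rw [ptl_c01 h1 hz]
      simp only [Loc.c.injEq, Fin.ext_iff]; omega
  · rcases z2 (Uf (j.val + 1) σ.1) with hu | hu
    · rw [ptl_c1v h1 hn hu, if_neg (by simp), hu, mul_zero]
    · rw [ptl_c1c h1 hn hu, if_pos rfl, h1, hu, mul_one]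

theorem XL_cc_other (j j' : Fin n) (h0 : j ≠ j') (h2 : j.val + 1 ≠ j'.val)
    (h3 : j'.val + 1 ≠ j.val) : XL (m := m) (.c j) (.c j') = 0 := by
  funext σ
  unfold XL
  rw [if_neg, Pi.zero_apply]
  rcases z2 (Zf (j.val + 1) σ.1) with h1 | h1
  · rcases z2 (Zf j.val σ.1) with hz | hz
    · rw [ptl_c00 h1 hz]; simp
    · have := pos_of_Zf hz
      rw [ptl_c01 h1 hz]
      simp only [Loc.c.injEq, Fin.ext_iff]; omega
  · by_cases hn : j.val + 1 < n
    · rcases z2 (Uf (j.val + 1) σ.1) with hu | hu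
      · rw [ptl_c1v h1 hn hu]; simp
      · rw [ptl_c1c h1 hn hu]
        simp only [Loc.c.injEq, Fin.ext_iff]; omega
    · rw [ptl_c1l h1 hn]; simpa using h0

theorem XL_cc_mem (j j' : Fin n) (h : j.val + 1 = j'.val) :
    XL (.c j) (.c j') ∈ Adeg (Fin m) (Fin n) 2 := by
  have hn : j.val + 1 < n := by rw [h]; exact j'.isLt
  have h1 : j' = ⟨j.val + 1, hn⟩ := Fin.ext h.symm
  rw [h1, XL_cc_next j hn]
  have h2 := Adeg_mul (ZA_mem (m := m) (n := n) (j.val + 1)) (UA_mem (m := m) (n := n) (j.val + 1))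
  exact h2

theorem XL_mem (x y : Loc m n) (hxy : x ≠ y) : XL x y ∈ Adeg (Fin m) (Fin n) 2 := by
  have one1 : (1 : Alg (Fin m) (Fin n)) ∈ Adeg (Fin m) (Fin n) 1 := one_mem_Adeg 1
  have vc : ∀ j j' : Fin n, XL (m := m) (.v j) (.c j') ∈ Adeg (Fin m) (Fin n) 2 := by
    intro j j'
    by_cases h1 : j = j'
    · subst h1
      rw [XL_vc_same]
      have h2 := Adeg_mul (Submodule.add_mem _ one1 (UA_mem (m := m) (n := n) j.val))
        (Submodule.add_mem _ one1 (ZA_mem (m := m) (n := n) j.val))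
      exact h2
    · by_cases h2 : j'.val + 1 = j.val
      · rw [XL_vc_prev j j' h2]
        have h2 := Adeg_mul (Submodule.add_mem _ one1 (UA_mem (m := m) (n := n) j.val))
          (ZA_mem (m := m) (n := n) j.val)
        exact h2
      · rw [XL_vc_other j j' h1 h2]
        exact Submodule.zero_mem _
  rcases x with i | j | j <;> rcases y with i' | j' | j'
  · rw [XL_uu i i' (fun h => hxy (by rw [h]))]; exact Submodule.zero_mem _
  · rw [XL_uv]; exact xm_mem_Adeg (by simp)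
  · rw [XL_uc]; exact Submodule.zero_mem _
  · rw [XL_symm, XL_uv]; exact xm_mem_Adeg (by simp)
  · rw [XL_vv]; exact Submodule.zero_mem _
  · exact vc j j'
  · rw [XL_symm, XL_uc]; exact Submodule.zero_mem _
  · rw [XL_symm]; exact vc j' j
  · have hne : j ≠ j' := fun h => hxy (by rw [h])
    by_cases h2 : j.val + 1 = j'.val
    · exact XL_cc_mem j j' h2
    · by_cases h3 : j'.val + 1 = j.val
      · rw [XL_symm]
        exact XL_cc_mem j' j h3
      · rw [XL_cc_other j j' hne h2 h3]; exact Submodule.zero_mem _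

end Pool.Agent.Lib.MP0b520b
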