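import Mathlib
import Pool.Agent.Lib.MP_0b520b_lc.PC
import Pool.Agent.Lib.MP_0b520b_lc.Tmpl

/-!
The template placed on a graph: the substitution that sends edge variables to functions on
partial matchings of pigeons and holes.
-/

namespace Pool.Agent.Lib.MP0b520b

open Finset

set_option linter.unusedSectionVars false

/-- a matching, as a finite set of unordered pairs -/
def PMt {α : Type} (M : Finset (Sym2 α)) : Prop :=
  ∀ e ∈ M, ∀ f ∈ M, ∀ a, a ∈ e → a ∈ f → e = f

/-- a template on a graph -/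
structure Tem (α : Type) (G : SimpleGraph α) (m n : ℕ) where
  R : Finset α
  p : α → α
  pR : ∀ a ∈ R, p a ∈ R
  inv : ∀ a ∈ R, p (p a) = a
  adj : ∀ a ∈ R, G.Adj a (p a)
  emb : Loc m n → α
  inj : Function.Injective emb
  rng : ∀ a, a ∉ R → ∃ x, emb x = a
  notR : ∀ x, emb x ∉ R
  ladj : ∀ x y, x ≠ y → ladj x y → G.Adj (emb x) (emb y)
  nuu : ∀ i i', ¬ G.Adj (emb (.u i)) (emb (.u i'))

namespace Tem

variable {α : Type} {G : SimpleGraph α} {m n : ℕ} (T : Tem α G m n)

/-- the partner function -/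
noncomputable def pt (σ : Finset (Fin m × Fin n)) : α → α :=
  Function.extend T.emb (fun x => T.emb (ptl σ x)) T.p

theorem pt_emb (σ : Finset (Fin m × Fin n)) (x : Loc m n) :
    T.pt σ (T.emb x) = T.emb (ptl σ x) := by
  unfold pt
  rw [T.inj.extend_apply]

theorem pt_R (σ : Finset (Fin m × Fin n)) {a : α} (ha : a ∈ T.R) : T.pt σ a = T.p a := by
  unfold pt
  rw [Function.extend_apply']
  rintro ⟨x, rfl⟩
  exact T.notR x ha

theorem pt_invol {σ : Finset (Fin m × Fin n)} (hσ : IsM σ) (a : α) :
    T.pt σ (T.pt σ a) = a := by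
  by_cases ha : a ∈ T.R
  · rw [T.pt_R σ ha, T.pt_R σ (T.pR a ha), T.inv a ha]
  · obtain ⟨x, rfl⟩ := T.rng a ha
    rw [pt_emb, pt_emb, ptl_invol hσ]

theorem pt_adj {σ : Finset (Fin m × Fin n)} (hσ : IsM σ) (a : α) (h : T.pt σ a ≠ a) :
    G.Adj a (T.pt σ a) := by
  by_cases ha : a ∈ T.R
  · rw [T.pt_R σ ha]; exact T.adj a ha
  · obtain ⟨x, rfl⟩ := T.rng a ha
    rw [pt_emb] at h ⊢
    have hne : ptl σ x ≠ x := fun h' => h (by rw [h'])
    exact T.ladj _ _ hne.symm (ptl_ladj hσ x hne)

open Classical in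
/-- indicator that two vertices are partners -/
noncomputable def XA (a b : α) : Alg (Fin m) (Fin n) :=
  fun σ => if T.pt σ.1 a = b then 1 else 0

theorem XA_symm (a b : α) : T.XA a b = T.XA b a := by
  funext σ
  unfold XA
  have : T.pt σ.1 a = b ↔ T.pt σ.1 b = a := by
    constructor
    · intro h; rw [← h]; exact T.pt_invol σ.2 a
    · intro h; rw [← h]; exact T.pt_invol σ.2 b
  by_cases h : T.pt σ.1 a = b
  · rw [if_pos h, if_pos (this.mp h)]
  · rw [if_neg h, if_neg (fun h' => h (this.mpr h'))]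

/-- indicator of an edge -/
noncomputable def XE (e : Sym2 α) : Alg (Fin m) (Fin n) :=
  Sym2.lift ⟨T.XA, T.XA_symm⟩ e

theorem XE_mk (a b : α) : T.XE s(a, b) = T.XA a b := rfl

theorem XE_ne {e : Sym2 α} {σ : MT (Fin m) (Fin n)} (h : T.XE e σ ≠ 0) {a : α} (ha : a ∈ e) :
    e = s(a, T.pt σ.1 a) := by
  obtain ⟨b, rfl⟩ := ha
  rw [XE_mk] at h
  unfold XA at h
  by_cases h' : T.pt σ.1 a = b
  · rw [h']
  · rw [if_neg h'] at h; exact absurd rfl h

theorem XE_pt {a : α} {σ : MT (Fin m) (Fin n)} : T.XE s(a, T.pt σ.1 a) σ = 1 := by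
  rw [XE_mk]
  unfold XA
  rw [if_pos rfl]

theorem XE_mul_zero {e f : Sym2 α} (hne : e ≠ f) {a : α} (hae : a ∈ e) (haf : a ∈ f)
    (σ : MT (Fin m) (Fin n)) : T.XE e σ = 0 ∨ T.XE f σ = 0 := by
  by_contra hcon
  push Not at hcon
  apply hne
  rw [T.XE_ne hcon.1 hae, T.XE_ne hcon.2 haf]

theorem XE_R_zero {e : Sym2 α} {a : α} (ha : a ∈ T.R) (hae : a ∈ e) (hne : e ≠ s(a, T.p a)) :
    T.XE e = 0 := by
  funext σ
  rw [Pi.zero_apply]
  by_contra hcon
  apply hne
  rw [T.XE_ne hcon hae, T.pt_R σ.1 ha]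

theorem XE_R_one {a : α} (ha : a ∈ T.R) : T.XE s(a, T.p a) = 1 := by
  funext σ
  rw [Pi.one_apply, ← T.pt_R σ.1 ha, XE_pt]

theorem XE_sq (e : Sym2 α) (σ : MT (Fin m) (Fin n)) : T.XE e σ = 0 ∨ T.XE e σ = 1 := z2 _

theorem XE_emb (x y : Loc m n) : T.XE s(T.emb x, T.emb y) = XL x y := by
  funext σ
  rw [XE_mk]
  unfold XA XL
  rw [pt_emb]
  by_cases h : ptl σ.1 x = y
  · rw [if_pos h, if_pos (by rw [h])]
  · rw [if_neg h, if_neg (fun h' => h (T.inj h'))]

theorem XE_mem (e : Sym2 α) (he : e ∈ G.edgeSet) :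
    T.XE e ∈ Adeg (Fin m) (Fin n) 2 := by
  by_cases h : ∃ a ∈ T.R, a ∈ e
  · obtain ⟨a, ha, hae⟩ := h
    by_cases h' : e = s(a, T.p a)
    · rw [h', T.XE_R_one ha]; exact one_mem_Adeg 2
    · rw [T.XE_R_zero ha hae h']; exact Submodule.zero_mem _
  · push Not at h
    induction e using Sym2.ind with
    | _ a b =>
      have ha : a ∉ T.R := fun h' => h a h' (Sym2.mem_mk_left a b)
      have hb : b ∉ T.R := fun h' => h b h' (Sym2.mem_mk_right a b)
      obtain ⟨x, rfl⟩ := T.rng a ha
      obtain ⟨y, rfl⟩ := T.rng b hb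
      rw [T.XE_emb]
      apply XL_mem
      rintro rfl
      exact G.loopless.irrefl _ (G.mem_edgeSet.mp he)

/-- the value of the vertex sum -/
theorem sum_XE [Fintype α] (v : α) (σ : MT (Fin m) (Fin n)) [DecidableEq α]
    [DecidablePred fun e : G.edgeSet => v ∈ (e : Sym2 α)] [Fintype G.edgeSet] :
    ∑ e ∈ Finset.univ.filter (fun e : G.edgeSet => v ∈ (e : Sym2 α)), T.XE (e : Sym2 α) σ =
      if T.pt σ.1 v = v then 0 else 1 := by
  split_ifs with h
  · apply Finset.sum_eq_zero
    intro e he
    by_contra hcon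
    have hv := (Finset.mem_filter.mp he).2
    have h1 := T.XE_ne hcon hv
    rw [h] at h1
    have h2 := e.2
    rw [h1] at h2
    exact G.loopless.irrefl _ (G.mem_edgeSet.mp h2)
  · have hadj := T.pt_adj σ.2 v h
    rw [Finset.sum_eq_single (⟨s(v, T.pt σ.1 v), hadj⟩ : G.edgeSet)]
    · exact T.XE_pt
    · intro e he hne
      by_contra hcon
      have hv := (Finset.mem_filter.mp he).2
      exact hne (Subtype.ext (T.XE_ne hcon hv))
    · intro hcon
      exfalso
      apply hcon
      rw [Finset.mem_filter]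
      exact ⟨Finset.mem_univ _, Sym2.mem_mk_left _ _⟩

/-- the substitution -/
noncomputable def th : MvPolynomial G.edgeSet (ZMod 2) →ₐ[ZMod 2] Alg (Fin m) (Fin n) :=
  MvPolynomial.aeval (fun e : G.edgeSet => T.XE (e : Sym2 α))

theorem th_X (e : G.edgeSet) : T.th (MvPolynomial.X e) = T.XE (e : Sym2 α) := by
  unfold th
  rw [MvPolynomial.aeval_X]

open Classical in
theorem th_vertex [Fintype α] (hm : Even m) (v : α) :
    T.th ((∑ e ∈ Finset.univ.filter (fun e : G.edgeSet => v ∈ (e : Sym2 α)), MvPolynomial.X e) - 1)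
      ∈ Ls (Fin m) (Fin n) 1 := by
  have h0 : T.th ((∑ e ∈ Finset.univ.filter (fun e : G.edgeSet => v ∈ (e : Sym2 α)),
      MvPolynomial.X e) - 1) = fun σ => if T.pt σ.1 v = v then (1 : ZMod 2) else 0 := by
    rw [map_sub, map_sum, map_one]
    funext σ
    rw [Pi.sub_apply, Finset.sum_apply, Pi.one_apply]
    have h1 : ∑ e ∈ Finset.univ.filter (fun e : G.edgeSet => v ∈ (e : Sym2 α)),
        T.th (MvPolynomial.X e) σ = ∑ e ∈ Finset.univ.filter
        (fun e : G.edgeSet => v ∈ (e : Sym2 α)), T.XE (e : Sym2 α) σ := by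
      apply Finset.sum_congr rfl
      intro e _
      rw [th_X]
    rw [h1, T.sum_XE]
    have e1 : (0 : ZMod 2) - 1 = 1 := by decide
    have e2 : (1 : ZMod 2) - 1 = 0 := by decide
    split_ifs
    · exact e1
    · exact e2
  rw [h0]
  by_cases hv : v ∈ T.R
  · have : (fun σ : MT (Fin m) (Fin n) => if T.pt σ.1 v = v then (1 : ZMod 2) else 0) = 0 := by
      funext σ
      rw [T.pt_R σ.1 hv, if_neg, Pi.zero_apply]
      exact (T.adj v hv).ne'
    rw [this]
    exact Submodule.zero_mem _
  · obtain ⟨x, rfl⟩ := T.rng v hv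
    have h2 : (fun σ : MT (Fin m) (Fin n) => if T.pt σ.1 (T.emb x) = T.emb x then (1 : ZMod 2)
        else 0) = fun σ : MT (Fin m) (Fin n) => if ptl σ.1 x = x then (1 : ZMod 2) else 0 := by
      funext σ
      rw [T.pt_emb]
      simp only [T.inj.eq_iff]
    rw [h2]
    rcases x with i | j | j
    · have h3 : (fun σ : MT (Fin m) (Fin n) => if ptl σ.1 (.u i) = .u i then (1 : ZMod 2)
          else 0) = rel ∅ i := by
        funext σ
        unfold rel
        rw [xm_empty, one_mul, Pi.add_apply, Pi.one_apply, Finset.sum_apply]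
        by_cases h : ∃ j, (i, j) ∈ σ.1
        · obtain ⟨j, hj⟩ := h
          rw [ptl_u_eq σ.2 hj, if_neg (by simp), Finset.sum_eq_single j]
          · unfold xm
            rw [if_pos (by simpa using hj)]
            decide
          · intro j' _ hne
            unfold xm
            rw [if_neg]
            intro hcon
            have : (i, j') ∈ σ.1 := by simpa using hcon
            exact hne (congrArg Prod.snd (σ.2 _ this _ hj (Or.inl rfl)))
          · intro h; exact absurd (Finset.mem_univ j) h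
        · rw [ptl_u_none h, if_pos rfl, Finset.sum_eq_zero, add_zero]
          intro j _
          unfold xm
          rw [if_neg]
          intro hcon
          exact h ⟨j, by simpa using hcon⟩
      rw [h3]
      exact Submodule.subset_span ⟨∅, i, by simp, rfl⟩
    · have h3 : (fun σ : MT (Fin m) (Fin n) => if ptl σ.1 (.v j) = .v j then (1 : ZMod 2)
          else 0) = 0 := by
        funext σ
        rw [if_neg (ptl_v_ne σ.2 j), Pi.zero_apply]
      rw [h3]
      exact Submodule.zero_mem _
    · by_cases hj : j.val + 1 = n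
      · have h3 : (fun σ : MT (Fin m) (Fin n) => if ptl σ.1 (.c j) = .c j then (1 : ZMod 2)
            else 0) = ZA n := by
          funext σ
          unfold ZA
          rcases z2 (Zf n σ.1) with hz | hz
          · rw [hz, if_neg]
            rw [ptl_c_eq_iff]
            rintro ⟨_, h⟩
            rw [hz] at h
            exact absurd h (by decide)
          · rw [hz, if_pos]
            rw [ptl_c_eq_iff]
            exact ⟨hj, hz⟩
        rw [h3]
        exact ZA_last_mem hm
      · have h3 : (fun σ : MT (Fin m) (Fin n) => if ptl σ.1 (.c j) = .c j then (1 : ZMod 2)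
            else 0) = 0 := by
          funext σ
          rw [if_neg, Pi.zero_apply]
          rw [ptl_c_eq_iff]
          rintro ⟨h, _⟩
          exact hj h
        rw [h3]
        exact Submodule.zero_mem _

theorem th_axiom [Fintype α] (hm : Even m) (q : MvPolynomial G.edgeSet (ZMod 2))
    (hq : q ∈ PMFormula (ZMod 2) G) : T.th q ∈ Ls (Fin m) (Fin n) 1 := by
  rcases hq with ⟨e, rfl⟩ | ⟨v, rfl⟩ | ⟨e, f, hne, ⟨v, hve, hvf⟩, rfl⟩
  · have : T.th (MvPolynomial.X e ^ 2 - MvPolynomial.X e) = 0 := by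
      rw [map_sub, map_pow, th_X]
      funext σ
      rw [Pi.sub_apply, Pi.pow_apply, Pi.zero_apply]
      have e1 : (0 : ZMod 2) ^ 2 - 0 = 0 := by decide
      have e2 : (1 : ZMod 2) ^ 2 - 1 = 0 := by decide
      rcases T.XE_sq (e : Sym2 α) σ with h | h
      · rw [h]; exact e1
      · rw [h]; exact e2
    rw [this]
    exact Submodule.zero_mem _
  · exact T.th_vertex hm v
  · have : T.th (MvPolynomial.X e * MvPolynomial.X f) = 0 := by
      rw [map_mul, th_X, th_X]
      funext σ
      rw [Pi.mul_apply, Pi.zero_apply]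
      have hne' : (e : Sym2 α) ≠ (f : Sym2 α) := fun h => hne (Subtype.ext h)
      rcases T.XE_mul_zero hne' hve hvf σ with h | h
      · rw [h, zero_mul]
      · rw [h, mul_zero]
    rw [this]
    exact Submodule.zero_mem _

/-- the vertices of the template other than the pigeons -/
noncomputable def W : Finset α := by
  classical
  exact Finset.univ.image (fun j : Fin n => T.emb (.v j)) ∪
    Finset.univ.image (fun j : Fin n => T.emb (.c j))

/-- survival of a set of edges -/
def alive (M : Finset (Sym2 α)) : Prop := ∀ e ∈ M, ∀ a ∈ T.R, a ∈ e → e = s(a, T.p a)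

theorem prod_mem {ι : Type} (s : Finset ι) (g : ι → Alg (Fin m) (Fin n)) (d : ι → ℕ)
    (h : ∀ i ∈ s, g i ∈ Adeg (Fin m) (Fin n) (d i)) :
    ∏ i ∈ s, g i ∈ Adeg (Fin m) (Fin n) (∑ i ∈ s, d i) := by
  classical
  induction s using Finset.induction_on with
  | empty => simpa using one_mem_Adeg 0
  | insert a s ha ih =>
    rw [Finset.prod_insert ha, Finset.sum_insert ha]
    exact Adeg_mul (h a (Finset.mem_insert_self a s))
      (ih (fun i hi => h i (Finset.mem_insert_of_mem hi)))

open Classical in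
theorem prod_XE_mem (M : Finset (Sym2 α)) (hG : ∀ e ∈ M, e ∈ G.edgeSet) (w : ℕ)
    (hM : PMt M → T.alive M → (T.W.filter (fun b => ∃ e ∈ M, b ∈ e)).card ≤ w) :
    ∏ e ∈ M, T.XE e ∈ Adeg (Fin m) (Fin n) (2 * w) := by
  by_cases h1 : PMt M
  · by_cases h2 : T.alive M
    · have h3 := hM h1 h2
      have h4 := prod_mem (m := m) (n := n) M (fun e => T.XE e)
        (fun e => if ∃ a ∈ T.R, a ∈ e then 0 else 2) (by
          intro e he
          split_ifs with h
          · obtain ⟨a, ha, hae⟩ := h
            rw [h2 e he a ha hae, T.XE_R_one ha]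
            exact one_mem_Adeg 0
          · exact T.XE_mem e (hG e he))
      refine Adeg_mono ?_ h4
      have h5 : ∑ e ∈ M, (if ∃ a ∈ T.R, a ∈ e then 0 else 2) =
          ∑ e ∈ M.filter (fun e => ¬ ∃ a ∈ T.R, a ∈ e), 2 := by
        rw [Finset.sum_filter]
        apply Finset.sum_congr rfl
        intro e _
        by_cases h : ∃ a ∈ T.R, a ∈ e
        · rw [if_pos h, if_neg (not_not.mpr h)]
        · rw [if_neg h, if_pos h]
      rw [h5, Finset.sum_const, smul_eq_mul, mul_comm]
      apply Nat.mul_le_mul_left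
      refine le_trans ?_ h3
      apply Finset.card_le_card_of_forall_subsingleton (fun (e : Sym2 α) (b : α) => b ∈ e)
      · intro e he
        obtain ⟨heM, heR⟩ := Finset.mem_filter.mp he
        push Not at heR
        have heG := hG e heM
        induction e using Sym2.ind with
        | _ a b =>
          have ha : a ∉ T.R := fun h' => heR a h' (Sym2.mem_mk_left a b)
          have hb : b ∉ T.R := fun h' => heR b h' (Sym2.mem_mk_right a b)
          obtain ⟨x, rfl⟩ := T.rng a ha
          obtain ⟨y, rfl⟩ := T.rng b hb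
          have hmem : ∀ z : Loc m n, (∀ i, z ≠ .u i) → T.emb z ∈ T.W := by
            intro z hz
            unfold W
            rw [Finset.mem_union, Finset.mem_image, Finset.mem_image]
            rcases z with i | j | j
            · exact absurd rfl (hz i)
            · exact Or.inl ⟨j, Finset.mem_univ _, rfl⟩
            · exact Or.inr ⟨j, Finset.mem_univ _, rfl⟩
          by_cases hx : ∀ i, x ≠ .u i
          · exact ⟨T.emb x, Finset.mem_filter.mpr ⟨hmem x hx, _, heM, Sym2.mem_mk_left _ _⟩,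
              Sym2.mem_mk_left _ _⟩
          · by_cases hy : ∀ i, y ≠ .u i
            · exact ⟨T.emb y, Finset.mem_filter.mpr ⟨hmem y hy, _, heM, Sym2.mem_mk_right _ _⟩,
                Sym2.mem_mk_right _ _⟩
            · push Not at hx hy
              obtain ⟨i, rfl⟩ := hx
              obtain ⟨i', rfl⟩ := hy
              exact absurd heG (T.nuu i i')
      · intro b _ e he f hf
        exact h1 e (Finset.mem_filter.mp he.1).1 f (Finset.mem_filter.mp hf.1).1 b he.2 hf.2
    · have : ∏ e ∈ M, T.XE e = 0 := by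
        unfold alive at h2
        push Not at h2
        obtain ⟨e, he, a, ha, hae, hne⟩ := h2
        exact Finset.prod_eq_zero he (T.XE_R_zero ha hae hne)
      rw [this]
      exact Submodule.zero_mem _
  · have : ∏ e ∈ M, T.XE e = 0 := by
      unfold PMt at h1
      push Not at h1
      obtain ⟨e, he, f, hf, a, hae, haf, hne⟩ := h1
      funext σ
      rw [Finset.prod_apply, Pi.zero_apply]
      rcases T.XE_mul_zero hne hae haf σ with h | h
      · exact Finset.prod_eq_zero he h
      · exact Finset.prod_eq_zero hf h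
    rw [this]
    exact Submodule.zero_mem _

/-- the edges of a monomial -/
def edges (s : G.edgeSet →₀ ℕ) : Finset (Sym2 α) := s.support.map (Function.Embedding.subtype _)

theorem XE_pow (e : Sym2 α) (k : ℕ) (hk : k ≠ 0) : T.XE e ^ k = T.XE e := by
  funext σ
  rw [Pi.pow_apply]
  rcases T.XE_sq e σ with h | h <;> rw [h]
  · exact zero_pow hk
  · exact one_pow k

theorem th_monomial (s : G.edgeSet →₀ ℕ) (c : ZMod 2) :
    T.th (MvPolynomial.monomial s c) = c • ∏ e ∈ edges s, T.XE e := by
  unfold th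
  rw [MvPolynomial.aeval_monomial, ← Algebra.smul_def]
  congr 1
  unfold edges
  rw [Finset.prod_map, Finsupp.prod]
  apply Finset.prod_congr rfl
  intro e he
  exact T.XE_pow _ _ (Finsupp.mem_support_iff.mp he)

open Classical in
theorem no_refutation_of_tem [Fintype α] (hm : Even m) (w : ℕ)
    (hn : (2 * w + 3) * (2 * w + 2) ≤ n)
    (π : PCRefutation (PMFormula (ZMod 2) G))
    (hM : ∀ p ∈ π.lines, ∀ s ∈ p.support, PMt (edges s) → T.alive (edges s) →
      (T.W.filter (fun b => ∃ e ∈ edges s, b ∈ e)).card ≤ w) : False := by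
  refine no_refutation π T.th (2 * w) (by rw [Fintype.card_fin]; exact hn) ?_ ?_ ?_
  · intro q hq
    exact Ls_mono (by omega) (T.th_axiom hm q hq)
  · intro e
    rw [th_X]
    exact T.XE_mem _ e.2
  · intro p hp
    rw [MvPolynomial.as_sum p, map_sum]
    apply Submodule.sum_mem
    intro s hs
    rw [T.th_monomial]
    apply Submodule.smul_mem
    apply T.prod_XE_mem _ _ _ (hM p hp s hs)
    intro e he
    unfold edges at he
    rw [Finset.mem_map] at he
    obtain ⟨e', _, rfl⟩ := he
    exact e'.2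

end Tem

end Pool.Agent.Lib.MP0b520b
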