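import Mathlib
import Pool.Agent.Lib.MP_0b520b_lc.GraphPart

/-!
The greedy restriction: matched pairs are added one by one so that few matchings which touch many
vertices of a given set survive.
-/

namespace Pool.Agent.Lib.MP0b520b

open Finset

set_option linter.unusedSectionVars false

/-- a partial pairing of the vertices -/
structure PS (α : Type) (G : SimpleGraph α) where
  R : Finset α
  p : α → α
  pR : ∀ a ∈ R, p a ∈ R
  inv : ∀ a ∈ R, p (p a) = a
  adj : ∀ a ∈ R, G.Adj a (p a)

namespace PS

variable {α : Type} {G : SimpleGraph α}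

/-- survival -/
def alive (s : PS α G) (M : Finset (Sym2 α)) : Prop :=
  ∀ e ∈ M, ∀ a ∈ s.R, a ∈ e → e = s(a, s.p a)

open Classical in
/-- adding a pair -/
noncomputable def ext (s : PS α G) (a b : α) (ha : a ∉ s.R) (hb : b ∉ s.R) (h : G.Adj a b) :
    PS α G where
  R := insert a (insert b s.R)
  p := fun x => if x = a then b else if x = b then a else s.p x
  pR := by
    intro x hx
    by_cases h1 : x = a
    · rw [if_pos h1]; simp
    · by_cases h2 : x = b
      · rw [if_neg h1, if_pos h2]; simp
      · rw [if_neg h1, if_neg h2]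
        have hx' : x ∈ s.R := by
          simp only [Finset.mem_insert] at hx
          tauto
        have := s.pR x hx'
        simp [this]
  inv := by
    intro x hx
    have hab : a ≠ b := h.ne
    by_cases h1 : x = a
    · simp only [h1, if_true]
      rw [if_neg hab.symm]
    · by_cases h2 : x = b
      · simp only [h2, if_neg hab.symm, if_true]
      · have hx' : x ∈ s.R := by
          simp only [Finset.mem_insert] at hx
          tauto
        have h3 := s.pR x hx'
        have h4 : s.p x ≠ a := fun h' => ha (h' ▸ h3)
        have h5 : s.p x ≠ b := fun h' => hb (h' ▸ h3)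
        simp only [if_neg h1, if_neg h2, if_neg h4, if_neg h5]
        exact s.inv x hx'
  adj := by
    intro x hx
    by_cases h1 : x = a
    · simp only [h1, if_true]; exact h
    · by_cases h2 : x = b
      · simp only [h2, if_neg h.ne', if_true]; exact h.symm
      · have hx' : x ∈ s.R := by
          simp only [Finset.mem_insert] at hx
          tauto
        simp only [if_neg h1, if_neg h2]
        exact s.adj x hx'

theorem ext_alive (s : PS α G) (a b : α) (ha : a ∉ s.R) (hb : b ∉ s.R) (h : G.Adj a b)
    {M : Finset (Sym2 α)} (hM : (s.ext a b ha hb h).alive M) : s.alive M := by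
  classical
  intro e he c hc hce
  have h1 := hM e he c (by simp [ext, hc]) hce
  have h2 : c ≠ a := fun h' => ha (h' ▸ hc)
  have h3 : c ≠ b := fun h' => hb (h' ▸ hc)
  simp only [ext, if_neg h2, if_neg h3] at h1
  exact h1

end PS

variable {α : Type} {G : SimpleGraph α}

open Classical in
/-- vertices of `Y` covered by `M` -/
noncomputable def touched (Y : Finset α) (M : Finset (Sym2 α)) : Finset α :=
  Y.filter (fun b => ∃ e ∈ M, b ∈ e)

theorem touched_mono {Y Y' : Finset α} (h : Y ⊆ Y') (M : Finset (Sym2 α)) :
    touched Y M ⊆ touched Y' M := by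
  classical
  intro b hb
  unfold touched at hb ⊢
  rw [Finset.mem_filter] at hb ⊢
  exact ⟨h hb.1, hb.2⟩

open Classical in
/-- surviving sets that touch at least `w` of the free vertices of `B` -/
noncomputable def fat (s : PS α G) (B : Finset α) (w : ℕ) (F : Finset (Finset (Sym2 α))) :
    Finset (Finset (Sym2 α)) :=
  F.filter (fun M => s.alive M ∧ w ≤ (touched (B \ s.R) M).card)

open Classical in
theorem step (s : PS α G) (F : Finset (Finset (Sym2 α))) (hF : ∀ M ∈ F, PMt M)
    (B : Finset α) (a : α) (ha : a ∉ s.R) (w : ℕ) (hw : 2 ≤ w)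
    (hadj : ∀ b ∈ (B \ s.R).erase a, G.Adj a b)
    (hne : ((B \ s.R).erase a).Nonempty) :
    ∃ b ∈ (B \ s.R).erase a, ∃ s' : PS α G, s'.R = insert a (insert b s.R) ∧
      (∀ M, s'.alive M → s.alive M) ∧
      ((fat s' B w F).card : ℝ) ≤ (fat s B w F).card * (1 - ((w : ℝ) - 2) / B.card) := by
  set Y := (B \ s.R).erase a with hY
  have hYR : ∀ b ∈ Y, b ∉ s.R := by
    intro b hb
    rw [hY, Finset.mem_erase, Finset.mem_sdiff] at hb
    exact hb.2.2
  -- the extension by `b`
  let E : ∀ b : Y, PS α G := fun b => s.ext a b ha (hYR b b.2) (hadj b b.2)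
  have hER : ∀ b : Y, (E b).R = insert a (insert b.1 s.R) := fun b => rfl
  -- survivors
  have hK : ∀ M ∈ fat s B w F, (Y.attach.filter (fun b => (E b).alive M)).card + (w - 2) ≤
      Y.card := by
    intro M hM
    unfold fat at hM
    rw [Finset.mem_filter] at hM
    obtain ⟨hMF, hMa, hMw⟩ := hM
    have hPM := hF M hMF
    -- touched in Y
    have h1 : w ≤ (touched Y M).card + 1 := by
      refine hMw.trans ?_
      have : touched (B \ s.R) M ⊆ insert a (touched Y M) := by
        intro b hb
        unfold touched at hb ⊢
        rw [Finset.mem_filter] at hb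
        rw [Finset.mem_insert, Finset.mem_filter, hY, Finset.mem_erase]
        by_cases hba : b = a
        · exact Or.inl hba
        · exact Or.inr ⟨⟨hba, hb.1⟩, hb.2⟩
      exact (Finset.card_le_card this).trans (Finset.card_insert_le _ _)
    -- survivors are outside of touched, except one
    have h2 : (Y.attach.filter (fun b => (E b).alive M)).card ≤ (Y \ touched Y M).card + 1 := by
      have h3 : ((Y.attach.filter (fun b => (E b).alive M)).map (Function.Embedding.subtype _)) ⊆
          (Y \ touched Y M) ∪ (Y.filter (fun b => s(a, b) ∈ M)) := by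
        intro b hb
        rw [Finset.mem_map] at hb
        obtain ⟨b', hb', rfl⟩ := hb
        rw [Finset.mem_filter] at hb'
        rw [Finset.mem_union, Finset.mem_sdiff, Finset.mem_filter]
        change (b'.1 ∈ Y ∧ b'.1 ∉ touched Y M) ∨ (b'.1 ∈ Y ∧ s(a, b'.1) ∈ M)
        by_cases ht : b'.1 ∈ touched Y M
        · right
          refine ⟨b'.2, ?_⟩
          unfold touched at ht
          rw [Finset.mem_filter] at ht
          obtain ⟨_, e, he, hbe⟩ := ht
          have h4 := hb'.2 e he b'.1 (by rw [hER]; simp) hbe
          have hba : b'.1 ≠ a := (Finset.mem_erase.mp b'.2).1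
          have h5 : (E b').p b'.1 = a := by
            change (if b'.1 = a then b'.1 else if b'.1 = b'.1 then a else s.p b'.1) = a
            rw [if_neg hba, if_pos rfl]
          rw [h5] at h4
          rw [Sym2.eq_swap, ← h4]
          exact he
        · left
          exact ⟨b'.2, ht⟩
      have h6 : (Y.filter (fun b => s(a, b) ∈ M)).card ≤ 1 := by
        rw [Finset.card_le_one]
        intro b hb b' hb'
        rw [Finset.mem_filter] at hb hb'
        have := hPM _ hb.2 _ hb'.2 a (Sym2.mem_mk_left _ _) (Sym2.mem_mk_left _ _)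
        exact Sym2.congr_right.mp this
      have h7 := Finset.card_le_card h3
      rw [Finset.card_map] at h7
      exact h7.trans ((Finset.card_union_le _ _).trans (by omega))
    have h8 : (Y \ touched Y M).card = Y.card - (touched Y M).card :=
      Finset.card_sdiff_of_subset (by unfold touched; exact Finset.filter_subset _ _)
    have h9 : (touched Y M).card ≤ Y.card :=
      Finset.card_le_card (by unfold touched; exact Finset.filter_subset _ _)
    have h10 : touched Y M ⊆ Y := by unfold touched; exact Finset.filter_subset _ _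
    omega
  -- double counting
  have hsum : ∑ b ∈ Y.attach, (((fat s B w F).filter (fun M => (E b).alive M)).card : ℝ) ≤
      (fat s B w F).card * ((Y.card : ℝ) - ((w : ℝ) - 2)) := by
    have h1 : ∑ b ∈ Y.attach, ((fat s B w F).filter (fun M => (E b).alive M)).card =
        ∑ M ∈ fat s B w F, (Y.attach.filter (fun b => (E b).alive M)).card := by
      simp only [Finset.card_filter]
      exact Finset.sum_comm
    have h2 : ∑ M ∈ fat s B w F, ((Y.attach.filter (fun b => (E b).alive M)).card : ℝ) ≤
        ∑ M ∈ fat s B w F, ((Y.card : ℝ) - ((w : ℝ) - 2)) := by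
      apply Finset.sum_le_sum
      intro M hM
      have := hK M hM
      have h3 : ((Y.attach.filter (fun b => (E b).alive M)).card : ℝ) + ((w - 2 : ℕ) : ℝ) ≤
        Y.card := by exact_mod_cast this
      rw [Nat.cast_sub hw] at h3
      push_cast at h3
      linarith
    have h3 : (∑ b ∈ Y.attach, (((fat s B w F).filter (fun M => (E b).alive M)).card : ℝ)) =
        ∑ M ∈ fat s B w F, ((Y.attach.filter (fun b => (E b).alive M)).card : ℝ) := by
      exact_mod_cast h1
    rw [h3]
    refine h2.trans (le_of_eq ?_)
    rw [Finset.sum_const, nsmul_eq_mul]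
  have hYpos : (0 : ℝ) < Y.card := by
    exact_mod_cast Finset.card_pos.mpr hne
  obtain ⟨b, hb, hbl⟩ : ∃ b ∈ Y.attach,
      (((fat s B w F).filter (fun M => (E b).alive M)).card : ℝ) ≤
      (fat s B w F).card * (1 - ((w : ℝ) - 2) / Y.card) := by
    by_contra hcon
    push Not at hcon
    have h1 : ∑ b ∈ Y.attach, ((fat s B w F).card * (1 - ((w : ℝ) - 2) / Y.card)) <
        ∑ b ∈ Y.attach, (((fat s B w F).filter (fun M => (E b).alive M)).card : ℝ) := by
      apply Finset.sum_lt_sum_of_nonempty
      · exact Finset.attach_nonempty_iff.mpr hne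
      · exact hcon
    rw [Finset.sum_const, nsmul_eq_mul, Finset.card_attach] at h1
    have h2 : (Y.card : ℝ) * ((fat s B w F).card * (1 - ((w : ℝ) - 2) / Y.card)) =
        (fat s B w F).card * ((Y.card : ℝ) - ((w : ℝ) - 2)) := by
      field_simp
    rw [h2] at h1
    exact absurd hsum (not_le.mpr h1)
  refine ⟨b.1, b.2, E b, hER b, fun M hM => ?_, ?_⟩
  · exact PS.ext_alive s a b.1 ha (hYR b b.2) (hadj b b.2) hM
  · have h1 : fat (E b) B w F ⊆ (fat s B w F).filter (fun M => (E b).alive M) := by
      intro M hM
      unfold fat at hM ⊢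
      rw [Finset.mem_filter] at hM
      rw [Finset.mem_filter, Finset.mem_filter]
      refine ⟨⟨hM.1, PS.ext_alive s a b.1 ha (hYR b b.2) (hadj b b.2) hM.2.1, ?_⟩, hM.2.1⟩
      refine hM.2.2.trans (Finset.card_le_card (touched_mono ?_ M))
      rw [hER]
      intro x hx
      rw [Finset.mem_sdiff] at hx ⊢
      refine ⟨hx.1, fun h => hx.2 ?_⟩
      simp [h]
    have h2 : ((fat (E b) B w F).card : ℝ) ≤
        (((fat s B w F).filter (fun M => (E b).alive M)).card : ℝ) := by
      exact_mod_cast Finset.card_le_card h1
    refine (h2.trans hbl).trans ?_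
    apply mul_le_mul_of_nonneg_left _ (Nat.cast_nonneg _)
    have h3 : (Y.card : ℝ) ≤ B.card := by
      have : Y ⊆ B := by
        intro x hx
        rw [hY, Finset.mem_erase, Finset.mem_sdiff] at hx
        exact hx.2.1
      exact_mod_cast Finset.card_le_card this
    have h4 : ((w : ℝ) - 2) / B.card ≤ ((w : ℝ) - 2) / Y.card := by
      apply div_le_div_of_nonneg_left _ hYpos h3
      have : (2 : ℝ) ≤ w := by exact_mod_cast hw
      linarith
    linarith

end Pool.Agent.Lib.MP0b520b
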