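import Mathlib
import Pool.Agent.Lib.MP_0b520b_lc.Greedy

/-!
The two phases of the greedy restriction, and the resulting template.
-/

namespace Pool.Agent.Lib.MP0b520b

open Finset

set_option linter.unusedSectionVars false

variable {α : Type} {G : SimpleGraph α}

theorem sdiff_ins [DecidableEq α] (X R : Finset α) (a b : α) :
    X \ insert a (insert b R) = ((X \ R).erase a).erase b := by
  ext x
  simp only [Finset.mem_sdiff, Finset.mem_insert, Finset.mem_erase]
  tauto

/-- the empty pairing -/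
def PS.empty (G : SimpleGraph α) : PS α G where
  R := ∅
  p := id
  pR := by simp
  inv := by simp
  adj := by simp

open Classical in
theorem phase1 (U V Z : Finset α) (hUV : Disjoint U V) (hUZ : Disjoint U Z) (hVZ : Disjoint V Z)
    (hadj : ∀ a ∈ U, ∀ b ∈ V, G.Adj a b)
    (F : Finset (Finset (Sym2 α))) (hF : ∀ M ∈ F, PMt M) (w : ℕ) (hw : 2 ≤ w)
    (hq0 : 0 ≤ 1 - ((w : ℝ) - 2) / V.card) (T : ℕ) (hTU : T ≤ U.card) (hTV : T ≤ V.card) :
    ∀ t ≤ T, ∃ s : PS α G, (U \ s.R).card + t = U.card ∧ (V \ s.R).card + t = V.card ∧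
      Z \ s.R = Z ∧ ((fat s V w F).card : ℝ) ≤ F.card * (1 - ((w : ℝ) - 2) / V.card) ^ t := by
  intro t
  induction t with
  | zero =>
    intro _
    refine ⟨PS.empty G, ?_, ?_, ?_, ?_⟩
    · simp [PS.empty]
    · simp [PS.empty]
    · simp [PS.empty]
    · rw [pow_zero, mul_one]
      exact_mod_cast Finset.card_le_card (Finset.filter_subset _ _)
  | succ t ih =>
    intro ht
    obtain ⟨s, h1, h2, h3, h4⟩ := ih (by omega)
    have hUne : (U \ s.R).Nonempty := Finset.card_pos.mp (by omega)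
    have hVne : (V \ s.R).Nonempty := Finset.card_pos.mp (by omega)
    obtain ⟨a, ha⟩ := hUne
    rw [Finset.mem_sdiff] at ha
    have haV : a ∉ V := fun h => Finset.disjoint_left.mp hUV ha.1 h
    have haZ : a ∉ Z := fun h => Finset.disjoint_left.mp hUZ ha.1 h
    have hera : (V \ s.R).erase a = V \ s.R := by
      apply Finset.erase_eq_of_notMem
      rw [Finset.mem_sdiff]
      exact fun h => haV h.1
    obtain ⟨b, hb, s', hR, _, hfat⟩ := step s F hF V a ha.2 w hw
      (by
        intro b hb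
        rw [hera, Finset.mem_sdiff] at hb
        exact hadj a ha.1 b hb.1)
      (by rw [hera]; exact hVne)
    rw [hera, Finset.mem_sdiff] at hb
    have hbU : b ∉ U := fun h => Finset.disjoint_left.mp hUV h hb.1
    have hbZ : b ∉ Z := fun h => Finset.disjoint_left.mp hVZ hb.1 h
    refine ⟨s', ?_, ?_, ?_, ?_⟩
    · rw [hR, sdiff_ins]
      rw [Finset.erase_eq_of_notMem (a := b), Finset.card_erase_of_mem]
      · have : 0 < (U \ s.R).card := Finset.card_pos.mpr ⟨a, Finset.mem_sdiff.mpr ha⟩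
        omega
      · exact Finset.mem_sdiff.mpr ha
      · rw [Finset.mem_erase, Finset.mem_sdiff]
        exact fun h => hbU h.2.1
    · rw [hR, sdiff_ins, hera, Finset.card_erase_of_mem]
      · have : 0 < (V \ s.R).card := Finset.card_pos.mpr hVne
        omega
      · exact Finset.mem_sdiff.mpr hb
    · rw [hR, sdiff_ins, h3]
      rw [Finset.erase_eq_of_notMem haZ, Finset.erase_eq_of_notMem hbZ]
    · refine hfat.trans ?_
      rw [pow_succ, ← mul_assoc]
      exact mul_le_mul_of_nonneg_right h4 hq0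

open Classical in
theorem phase2 (U V Z : Finset α) (hUZ : Disjoint U Z) (hVZ : Disjoint V Z)
    (hadj : ∀ a ∈ Z, ∀ b ∈ Z, a ≠ b → G.Adj a b)
    (F : Finset (Finset (Sym2 α))) (hF : ∀ M ∈ F, PMt M) (w : ℕ) (hw : 2 ≤ w)
    (hq0 : 0 ≤ 1 - ((w : ℝ) - 2) / Z.card) (s1 : PS α G) (hs1 : Z \ s1.R = Z)
    (T : ℕ) (hTZ : 2 * T ≤ Z.card) :
    ∀ t ≤ T, ∃ s : PS α G, U \ s.R = U \ s1.R ∧ V \ s.R = V \ s1.R ∧
      (Z \ s.R).card + 2 * t = Z.card ∧ (∀ M, s.alive M → s1.alive M) ∧
      ((fat s Z w F).card : ℝ) ≤ F.card * (1 - ((w : ℝ) - 2) / Z.card) ^ t := by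
  intro t
  induction t with
  | zero =>
    intro _
    refine ⟨s1, rfl, rfl, ?_, fun M h => h, ?_⟩
    · rw [hs1]; omega
    · rw [pow_zero, mul_one]
      exact_mod_cast Finset.card_le_card (Finset.filter_subset _ _)
  | succ t ih =>
    intro ht
    obtain ⟨s, h1, h2, h3, h5, h4⟩ := ih (by omega)
    have hZne : (Z \ s.R).Nonempty := Finset.card_pos.mp (by omega)
    obtain ⟨a, ha0⟩ := hZne
    have ha := Finset.mem_sdiff.mp ha0
    have haV : a ∉ V := fun h => Finset.disjoint_left.mp hVZ h ha.1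
    have haU : a ∉ U := fun h => Finset.disjoint_left.mp hUZ h ha.1
    have hecard : ((Z \ s.R).erase a).card = (Z \ s.R).card - 1 := Finset.card_erase_of_mem ha0
    have hene : ((Z \ s.R).erase a).Nonempty := Finset.card_pos.mp (by omega)
    obtain ⟨b, hb, s', hR, hal, hfat⟩ := step s F hF Z a ha.2 w hw
      (by
        intro b hb
        rw [Finset.mem_erase, Finset.mem_sdiff] at hb
        exact hadj a ha.1 b hb.2.1 hb.1.symm)
      hene
    have hb' := hb
    rw [Finset.mem_erase, Finset.mem_sdiff] at hb'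
    have hbU : b ∉ U := fun h => Finset.disjoint_left.mp hUZ h hb'.2.1
    have hbV : b ∉ V := fun h => Finset.disjoint_left.mp hVZ h hb'.2.1
    refine ⟨s', ?_, ?_, ?_, fun M hM => h5 M (hal M hM), ?_⟩
    · rw [hR, sdiff_ins, ← h1]
      rw [Finset.erase_eq_of_notMem (a := b), Finset.erase_eq_of_notMem]
      · rw [Finset.mem_sdiff]; exact fun h => haU h.1
      · rw [Finset.mem_erase, Finset.mem_sdiff]; exact fun h => hbU h.2.1
    · rw [hR, sdiff_ins, ← h2]
      rw [Finset.erase_eq_of_notMem (a := b), Finset.erase_eq_of_notMem]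
      · rw [Finset.mem_sdiff]; exact fun h => haV h.1
      · rw [Finset.mem_erase, Finset.mem_sdiff]; exact fun h => hbV h.2.1
    · rw [hR, sdiff_ins, Finset.card_erase_of_mem hb, hecard]
      have : 0 < ((Z \ s.R).erase a).card := Finset.card_pos.mpr hene
      omega
    · refine hfat.trans ?_
      rw [pow_succ, ← mul_assoc]
      exact mul_le_mul_of_nonneg_right h4 hq0

theorem pow_bound (x : ℝ) (hx : x ≤ 1) (t : ℕ) : (1 - x) ^ t ≤ Real.exp (-(t * x)) := by
  have h1 : 1 - x ≤ Real.exp (-x) := Real.one_sub_le_exp_neg x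
  have h2 : (1 - x) ^ t ≤ Real.exp (-x) ^ t := pow_le_pow_left₀ (by linarith) h1 t
  rw [← Real.exp_nat_mul] at h2
  have h3 : (t : ℝ) * -x = -(t * x) := by ring
  rwa [h3] at h2

/-- an empty fat set -/
theorem fat_empty (s : PS α G) (B : Finset α) (w : ℕ) (F : Finset (Finset (Sym2 α)))
    (h : ((fat s B w F).card : ℝ) < 1) (M : Finset (Sym2 α)) (hM : M ∈ F) (ha : s.alive M) :
    by classical exact (touched (B \ s.R) M).card < w := by
  classical
  have h1 : (fat s B w F).card = 0 := by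
    have : (fat s B w F).card < 1 := by exact_mod_cast h
    omega
  rw [Finset.card_eq_zero] at h1
  by_contra hcon
  push Not at hcon
  have : M ∈ fat s B w F := by
    unfold fat
    rw [Finset.mem_filter]
    exact ⟨hM, ha, hcon⟩
  rw [h1] at this
  exact absurd this (Finset.notMem_empty _)

open Classical in
/-- construction of the template -/
theorem exists_tem [Fintype α] (U V Z : Finset α) (hUV : Disjoint U V) (hUZ : Disjoint U Z)
    (hVZ : Disjoint V Z) (huniv : ∀ a, a ∈ U ∨ a ∈ V ∨ a ∈ Z)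
    (aUV : ∀ a ∈ U, ∀ b ∈ V, G.Adj a b) (aVZ : ∀ a ∈ V, ∀ b ∈ Z, G.Adj a b)
    (aZZ : ∀ a ∈ Z, ∀ b ∈ Z, a ≠ b → G.Adj a b) (nUU : ∀ a ∈ U, ∀ b ∈ U, ¬ G.Adj a b)
    (r : ℕ) (hr : 0 < r) (cU : U.card = 4 * r + 2) (cV : V.card = 4 * r) (cZ : Z.card = 4 * r)
    (F : Finset (Finset (Sym2 α))) (hF : ∀ M ∈ F, PMt M) (w : ℕ) (hw : 2 ≤ w) (hwr : w ≤ r)
    (hS : (F.card : ℝ) < Real.exp (((w : ℝ) - 2) / 4)) :
    ∃ T : Tem α G (2 * r + 2) (2 * r), ∀ M ∈ F, T.alive M →
      (T.W.filter (fun b => ∃ e ∈ M, b ∈ e)).card ≤ 2 * w := by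
  have hw2 : (0 : ℝ) ≤ (w : ℝ) - 2 := by
    have : (2 : ℝ) ≤ w := by exact_mod_cast hw
    linarith
  have hr0 : (0 : ℝ) < r := by exact_mod_cast hr
  have hwr' : (w : ℝ) ≤ r := by exact_mod_cast hwr
  have hx1 : ((w : ℝ) - 2) / ((4 * r : ℕ) : ℝ) ≤ 1 := by
    push_cast
    rw [div_le_one (by linarith)]
    linarith
  obtain ⟨s1, u1, v1, z1, f1⟩ := phase1 U V Z hUV hUZ hVZ aUV F hF w hw
    (by rw [cV]; linarith) (2 * r) (by omega) (by omega) (2 * r) le_rfl
  obtain ⟨s, u2, v2, z2, al, f2⟩ := phase2 U V Z hUZ hVZ aZZ F hF w hw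
    (by rw [cZ]; linarith) s1 z1 r (by omega) r le_rfl
  -- numerics
  have hexp : Real.exp (((w : ℝ) - 2) / 4) * Real.exp (-(((w : ℝ) - 2) / 4)) = 1 := by
    rw [← Real.exp_add, add_neg_cancel, Real.exp_zero]
  have g1 : ((fat s1 V w F).card : ℝ) < 1 := by
    refine lt_of_le_of_lt f1 ?_
    have h1 := pow_bound _ hx1 (2 * r)
    rw [← cV] at h1
    have h2 : -(((2 * r : ℕ) : ℝ) * (((w : ℝ) - 2) / (V.card : ℝ))) ≤ -(((w : ℝ) - 2) / 4) := by
      rw [cV]
      push_cast
      have : (2 * (r : ℝ)) * (((w : ℝ) - 2) / (4 * r)) = ((w : ℝ) - 2) / 2 := by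
        field_simp; ring
      rw [this]
      linarith
    have h3 := h1.trans (Real.exp_le_exp.mpr h2)
    calc (F.card : ℝ) * (1 - ((w : ℝ) - 2) / V.card) ^ (2 * r)
        ≤ F.card * Real.exp (-(((w : ℝ) - 2) / 4)) :=
          mul_le_mul_of_nonneg_left h3 (Nat.cast_nonneg _)
      _ < Real.exp (((w : ℝ) - 2) / 4) * Real.exp (-(((w : ℝ) - 2) / 4)) :=
          mul_lt_mul_of_pos_right hS (Real.exp_pos _)
      _ = 1 := hexp
  have g2 : ((fat s Z w F).card : ℝ) < 1 := by
    refine lt_of_le_of_lt f2 ?_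
    have h1 := pow_bound _ hx1 r
    rw [← cZ] at h1
    have h2 : -(((r : ℕ) : ℝ) * (((w : ℝ) - 2) / (Z.card : ℝ))) ≤ -(((w : ℝ) - 2) / 4) := by
      rw [cZ]
      push_cast
      have : ((r : ℝ)) * (((w : ℝ) - 2) / (4 * r)) = ((w : ℝ) - 2) / 4 := by
        field_simp
      rw [this]
    have h3 := h1.trans (Real.exp_le_exp.mpr h2)
    calc (F.card : ℝ) * (1 - ((w : ℝ) - 2) / Z.card) ^ r
        ≤ F.card * Real.exp (-(((w : ℝ) - 2) / 4)) :=
          mul_le_mul_of_nonneg_left h3 (Nat.cast_nonneg _)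
      _ < Real.exp (((w : ℝ) - 2) / 4) * Real.exp (-(((w : ℝ) - 2) / 4)) :=
          mul_lt_mul_of_pos_right hS (Real.exp_pos _)
      _ = 1 := hexp
  -- bijections
  have kU : (U \ s.R).card = 2 * r + 2 := by rw [u2]; omega
  have kV : (V \ s.R).card = 2 * r := by rw [v2]; omega
  have kZ : (Z \ s.R).card = 2 * r := by omega
  let eU := Finset.equivFinOfCardEq kU
  let eV := Finset.equivFinOfCardEq kV
  let eZ := Finset.equivFinOfCardEq kZ
  let emb : Loc (2 * r + 2) (2 * r) → α := fun x => match x with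
    | .u i => (eU.symm i).1
    | .v j => (eV.symm j).1
    | .c j => (eZ.symm j).1
  have mU : ∀ i, emb (.u i) ∈ U \ s.R := fun i => (eU.symm i).2
  have mV : ∀ i, emb (.v i) ∈ V \ s.R := fun i => (eV.symm i).2
  have mZ : ∀ i, emb (.c i) ∈ Z \ s.R := fun i => (eZ.symm i).2
  have hinj : Function.Injective emb := by
    intro x y hxy
    rcases x with i | j | j <;> rcases y with i' | j' | j'
    · have : eU.symm i = eU.symm i' := Subtype.ext hxy
      rw [eU.symm.injective this]
    · exfalso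
      have h1 := (Finset.mem_sdiff.mp (mU i)).1
      rw [hxy] at h1
      exact Finset.disjoint_left.mp hUV h1 (Finset.mem_sdiff.mp (mV j')).1
    · exfalso
      have h1 := (Finset.mem_sdiff.mp (mU i)).1
      rw [hxy] at h1
      exact Finset.disjoint_left.mp hUZ h1 (Finset.mem_sdiff.mp (mZ j')).1
    · exfalso
      have h1 := (Finset.mem_sdiff.mp (mU i')).1
      rw [← hxy] at h1
      exact Finset.disjoint_left.mp hUV h1 (Finset.mem_sdiff.mp (mV j)).1
    · have : eV.symm j = eV.symm j' := Subtype.ext hxy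
      rw [eV.symm.injective this]
    · exfalso
      have h1 := (Finset.mem_sdiff.mp (mV j)).1
      rw [hxy] at h1
      exact Finset.disjoint_left.mp hVZ h1 (Finset.mem_sdiff.mp (mZ j')).1
    · exfalso
      have h1 := (Finset.mem_sdiff.mp (mU i')).1
      rw [← hxy] at h1
      exact Finset.disjoint_left.mp hUZ h1 (Finset.mem_sdiff.mp (mZ j)).1
    · exfalso
      have h1 := (Finset.mem_sdiff.mp (mV j')).1
      rw [← hxy] at h1
      exact Finset.disjoint_left.mp hVZ h1 (Finset.mem_sdiff.mp (mZ j)).1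
    · have : eZ.symm j = eZ.symm j' := Subtype.ext hxy
      rw [eZ.symm.injective this]
  let T : Tem α G (2 * r + 2) (2 * r) :=
    { R := s.R
      p := s.p
      pR := s.pR
      inv := s.inv
      adj := s.adj
      emb := emb
      inj := hinj
      rng := by
        intro a ha
        rcases huniv a with h | h | h
        · refine ⟨.u (eU ⟨a, Finset.mem_sdiff.mpr ⟨h, ha⟩⟩), ?_⟩
          change (eU.symm (eU _)).1 = a
          rw [eU.symm_apply_apply]
        · refine ⟨.v (eV ⟨a, Finset.mem_sdiff.mpr ⟨h, ha⟩⟩), ?_⟩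
          change (eV.symm (eV _)).1 = a
          rw [eV.symm_apply_apply]
        · refine ⟨.c (eZ ⟨a, Finset.mem_sdiff.mpr ⟨h, ha⟩⟩), ?_⟩
          change (eZ.symm (eZ _)).1 = a
          rw [eZ.symm_apply_apply]
      notR := by
        intro x
        rcases x with i | j | j
        · exact (Finset.mem_sdiff.mp (mU i)).2
        · exact (Finset.mem_sdiff.mp (mV j)).2
        · exact (Finset.mem_sdiff.mp (mZ j)).2
      ladj := by
        intro x y hxy h
        have hne : emb x ≠ emb y := fun h' => hxy (hinj h')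
        rcases x with i | j | j <;> rcases y with i' | j' | j'
        · exact absurd h (by simp [ladj])
        · exact aUV _ (Finset.mem_sdiff.mp (mU i)).1 _ (Finset.mem_sdiff.mp (mV j')).1
        · exact absurd h (by simp [ladj])
        · exact (aUV _ (Finset.mem_sdiff.mp (mU i')).1 _ (Finset.mem_sdiff.mp (mV j)).1).symm
        · exact absurd h (by simp [ladj])
        · exact aVZ _ (Finset.mem_sdiff.mp (mV j)).1 _ (Finset.mem_sdiff.mp (mZ j')).1
        · exact absurd h (by simp [ladj])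
        · exact (aVZ _ (Finset.mem_sdiff.mp (mV j')).1 _ (Finset.mem_sdiff.mp (mZ j)).1).symm
        · exact aZZ _ (Finset.mem_sdiff.mp (mZ j)).1 _ (Finset.mem_sdiff.mp (mZ j')).1 hne
      nuu := by
        intro i i'
        exact nUU _ (Finset.mem_sdiff.mp (mU i)).1 _ (Finset.mem_sdiff.mp (mU i')).1 }
  refine ⟨T, ?_⟩
  intro M hM hal
  have hals : s.alive M := hal
  have b1 := fat_empty s1 V w F g1 M hM (al M hals)
  have b2 := fat_empty s Z w F g2 M hM hals
  rw [← v2] at b1
  have hsub : T.W.filter (fun b => ∃ e ∈ M, b ∈ e) ⊆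
      touched (V \ s.R) M ∪ touched (Z \ s.R) M := by
    intro b hb
    rw [Finset.mem_filter] at hb
    obtain ⟨hbW, hbt⟩ := hb
    unfold Tem.W at hbW
    rw [Finset.mem_union, Finset.mem_image, Finset.mem_image] at hbW
    unfold touched
    rw [Finset.mem_union, Finset.mem_filter, Finset.mem_filter]
    rcases hbW with ⟨j, _, hj⟩ | ⟨j, _, hj⟩
    · left
      refine ⟨?_, hbt⟩
      rw [← hj]
      exact mV j
    · right
      refine ⟨?_, hbt⟩
      rw [← hj]
      exact mZ j
  have := (Finset.card_le_card hsub).trans (Finset.card_union_le _ _)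
  omega

end Pool.Agent.Lib.MP0b520b
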