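import Mathlib
import Pool.Agent.Lib.MP_0b520b_lc.Phases

/-!
The graph family, and the size lower bound for Polynomial Calculus over the field with two
elements.
-/

namespace Pool.Agent.Lib.MP0b520b

open Finset

set_option linter.unusedSectionVars false

/-- the graph: an independent set of `4r+2` vertices, joined completely to an independent set of
`4r` vertices, joined completely to a clique of `4r` vertices -/
def GG (r : ℕ) : SimpleGraph (Fin (12 * r + 2)) :=
  SimpleGraph.fromRel (fun a b =>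
    (a.val < 4 * r + 2 ∧ 4 * r + 2 ≤ b.val ∧ b.val < 8 * r + 2) ∨
    (4 * r + 2 ≤ a.val ∧ 8 * r + 2 ≤ b.val))

def UU (r : ℕ) : Finset (Fin (12 * r + 2)) := Finset.univ.filter (fun a => a.val < 4 * r + 2)

def VV (r : ℕ) : Finset (Fin (12 * r + 2)) :=
  Finset.univ.filter (fun a => 4 * r + 2 ≤ a.val ∧ a.val < 8 * r + 2)

def ZZ (r : ℕ) : Finset (Fin (12 * r + 2)) := Finset.univ.filter (fun a => 8 * r + 2 ≤ a.val)

theorem card_UU (r : ℕ) : (UU r).card = 4 * r + 2 := by
  have h : (UU r).map Fin.valEmbedding = Finset.range (4 * r + 2) := by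
    ext x
    simp only [UU, Finset.mem_map, Finset.mem_filter, Finset.mem_univ, true_and,
      Fin.valEmbedding_apply, Finset.mem_range]
    constructor
    · rintro ⟨a, ha, rfl⟩; exact ha
    · intro hx; exact ⟨⟨x, by omega⟩, hx, rfl⟩
  rw [← Finset.card_map, h, Finset.card_range]

theorem card_VV (r : ℕ) : (VV r).card = 4 * r := by
  have h : (VV r).map Fin.valEmbedding = Finset.Ico (4 * r + 2) (8 * r + 2) := by
    ext x
    simp only [VV, Finset.mem_map, Finset.mem_filter, Finset.mem_univ, true_and,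
      Fin.valEmbedding_apply, Finset.mem_Ico]
    constructor
    · rintro ⟨a, ha, rfl⟩; exact ha
    · intro hx; exact ⟨⟨x, by omega⟩, hx, rfl⟩
  rw [← Finset.card_map, h, Nat.card_Ico]
  omega

theorem card_ZZ (r : ℕ) : (ZZ r).card = 4 * r := by
  have h : (ZZ r).map Fin.valEmbedding = Finset.Ico (8 * r + 2) (12 * r + 2) := by
    ext x
    simp only [ZZ, Finset.mem_map, Finset.mem_filter, Finset.mem_univ, true_and,
      Fin.valEmbedding_apply, Finset.mem_Ico]
    constructor
    · rintro ⟨a, ha, rfl⟩; exact ⟨ha, a.isLt⟩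
    · intro hx; exact ⟨⟨x, by omega⟩, hx.1, rfl⟩
  rw [← Finset.card_map, h, Nat.card_Ico]
  omega

theorem GG_adj (r : ℕ) (a b : Fin (12 * r + 2)) : (GG r).Adj a b ↔ a ≠ b ∧
    (((a.val < 4 * r + 2 ∧ 4 * r + 2 ≤ b.val ∧ b.val < 8 * r + 2) ∨
    (4 * r + 2 ≤ a.val ∧ 8 * r + 2 ≤ b.val)) ∨
    ((b.val < 4 * r + 2 ∧ 4 * r + 2 ≤ a.val ∧ a.val < 8 * r + 2) ∨
    (4 * r + 2 ≤ b.val ∧ 8 * r + 2 ≤ a.val))) := Iff.rfl

/-- the graphs have no perfect matching -/
theorem GG_no_matching (r : ℕ) : ¬ ∃ M : (GG r).Subgraph, M.IsPerfectMatching := by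
  rintro ⟨M, hM, hspan⟩
  have h1 : ∀ a : Fin (12 * r + 2), ∃ b, M.Adj a b := fun a => (hM (hspan a)).exists
  choose f hf using h1
  have h2 : ∀ a ∈ UU r, f a ∈ VV r := by
    intro a ha
    have h3 := M.adj_sub (hf a)
    rw [GG_adj] at h3
    simp only [UU, Finset.mem_filter, Finset.mem_univ, true_and] at ha
    simp only [VV, Finset.mem_filter, Finset.mem_univ, true_and]
    omega
  have h3 : ∀ a ∈ UU r, ∀ b ∈ UU r, f a = f b → a = b := by
    intro a _ b _ hab
    have h4 := (hf a).symm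
    have h5 := (hf b).symm
    rw [← hab] at h5
    exact (hM (hspan (f a))).unique h4 h5
  have h4 := Finset.card_le_card_of_injOn f h2 (fun a ha b hb h => h3 a ha b hb h)
  rw [card_UU, card_VV] at h4
  omega

theorem card_lines {ι : Type} (l : List (MvPolynomial ι (ZMod 2)))
    [DecidableEq (ι →₀ ℕ)] [DecidableEq (MvPolynomial ι (ZMod 2))] :
    (l.toFinset.biUnion (fun p => p.support)).card ≤ (l.map (fun p => p.support.card)).sum := by
  induction l with
  | nil => simp
  | cons p l ih =>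
    rw [List.toFinset_cons, Finset.biUnion_insert, List.map_cons, List.sum_cons]
    exact (Finset.card_union_le _ _).trans (by omega)

/-- the size lower bound -/
theorem size_lower (w r : ℕ) (hw : 6 ≤ w) (hr : r = 10 * w ^ 2)
    (π : PCRefutation (PMFormula (ZMod 2) (GG r))) :
    Real.exp (((w : ℝ) - 2) / 4) ≤ π.size := by
  classical
  by_contra hcon
  push Not at hcon
  have hw2 : w ≤ w ^ 2 := by nlinarith
  let F0 : Finset (Finset (Sym2 (Fin (12 * r + 2)))) :=
    (π.lines.toFinset.biUnion (fun p => p.support)).image (fun s => Tem.edges s)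
  let F := F0.filter (fun M => PMt M)
  have hFcard : F.card ≤ π.size :=
    (Finset.card_le_card (Finset.filter_subset _ _)).trans
      (Finset.card_image_le.trans (card_lines π.lines))
  have hFS : (F.card : ℝ) < Real.exp (((w : ℝ) - 2) / 4) := by
    refine lt_of_le_of_lt ?_ hcon
    exact_mod_cast hFcard
  obtain ⟨T, hT⟩ := exists_tem (G := GG r) (UU r) (VV r) (ZZ r)
    (by
      rw [Finset.disjoint_left]
      intro a ha hb
      simp only [UU, VV, Finset.mem_filter, Finset.mem_univ, true_and] at ha hb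
      omega)
    (by
      rw [Finset.disjoint_left]
      intro a ha hb
      simp only [UU, ZZ, Finset.mem_filter, Finset.mem_univ, true_and] at ha hb
      omega)
    (by
      rw [Finset.disjoint_left]
      intro a ha hb
      simp only [VV, ZZ, Finset.mem_filter, Finset.mem_univ, true_and] at ha hb
      omega)
    (by
      intro a
      simp only [UU, VV, ZZ, Finset.mem_filter, Finset.mem_univ, true_and]
      omega)
    (by
      intro a ha b hb
      simp only [UU, VV, Finset.mem_filter, Finset.mem_univ, true_and] at ha hb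
      rw [GG_adj]
      refine ⟨?_, Or.inl (Or.inl ⟨ha, hb⟩)⟩
      rintro rfl
      omega)
    (by
      intro a ha b hb
      simp only [VV, ZZ, Finset.mem_filter, Finset.mem_univ, true_and] at ha hb
      rw [GG_adj]
      refine ⟨?_, Or.inl (Or.inr ⟨ha.1, hb⟩)⟩
      rintro rfl
      omega)
    (by
      intro a ha b hb hab
      simp only [ZZ, Finset.mem_filter, Finset.mem_univ, true_and] at ha hb
      rw [GG_adj]
      exact ⟨hab, Or.inl (Or.inr ⟨by omega, hb⟩)⟩)
    (by
      intro a ha b hb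
      simp only [UU, Finset.mem_filter, Finset.mem_univ, true_and] at ha hb
      rw [GG_adj]
      omega)
    r (by nlinarith) (card_UU r) (card_VV r) (card_ZZ r) F
    (fun M hM => (Finset.mem_filter.mp hM).2) w (by omega) (by nlinarith) hFS
  refine T.no_refutation_of_tem ⟨r + 1, by ring⟩ (2 * w) ?_ π ?_
  · rw [hr]
    nlinarith
  · intro p hp s hs hPM hal
    have hmem : Tem.edges s ∈ F := by
      refine Finset.mem_filter.mpr ⟨Finset.mem_image.mpr ⟨s, ?_, rfl⟩, hPM⟩
      exact Finset.mem_biUnion.mpr ⟨p, List.mem_toFinset.mpr hp, hs⟩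
    exact hT _ hmem hal

theorem exponent_bound (w : ℕ) (hw : 200 ≤ w) :
    (((12 * (10 * w ^ 2) + 2 : ℕ) : ℝ)) ^ (1 / 4 : ℝ) ≤ ((w : ℝ) - 2) / 4 := by
  have hw' : (200 : ℝ) ≤ w := by exact_mod_cast hw
  have h1 : (((12 * (10 * w ^ 2) + 2 : ℕ) : ℝ)) ≤ (((w : ℝ) - 2) / 4) ^ (4 : ℕ) := by
    push_cast
    set x := ((w : ℝ) - 2) / 4 with hx
    have hwx : (w : ℝ) = 4 * x + 2 := by rw [hx]; ring
    have hx49 : (49.5 : ℝ) ≤ x := by rw [hx]; linarith
    rw [hwx]
    have h2 : (2450.25 : ℝ) ≤ x ^ 2 := by nlinarith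
    have h3 : (2450.25 : ℝ) * x ^ 2 ≤ x ^ 4 := by
      have : x ^ 4 = x ^ 2 * x ^ 2 := by ring
      rw [this]
      exact mul_le_mul_of_nonneg_right h2 (by positivity)
    nlinarith
  have h2 : (0 : ℝ) ≤ ((w : ℝ) - 2) / 4 := by linarith
  calc (((12 * (10 * w ^ 2) + 2 : ℕ) : ℝ)) ^ (1 / 4 : ℝ)
      ≤ ((((w : ℝ) - 2) / 4) ^ (4 : ℕ)) ^ (1 / 4 : ℝ) :=
        Real.rpow_le_rpow (Nat.cast_nonneg _) h1 (by norm_num)
    _ = ((w : ℝ) - 2) / 4 := by
        rw [← Real.rpow_natCast, ← Real.rpow_mul h2]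
        norm_num

end Pool.Agent.Lib.MP0b520b
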